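import Pool.Agent.Helper54.PR.Quasi

/-!
# PR-02: quotients of products of quasisimple groups

PROOF.  `f i = π ∘ (MonoidHom.mulSingle X i)`; `π` is surjective, so `Y` is generated by the `(f i).range` (`ι` finite), which are
normal in `Y`.  It is enough to show `(f i).range ≤ JJ k P` for all `i` (`jj_top`).
If `P` centralizes `(f i).range`, so does the normal closure `⊤` of `P` (the centralizer of a normal subgroup is normal), so
`(f i).range` is commutative, and trivial since `X i` is perfect.
Otherwise there is `x0 ∈ P` which does not centralize `(f i).range`.  `x0 = π y`, and `x0 (f i u) x0⁻¹ = f i (y i * u * (y i)⁻¹)`.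
Among the powers `x0^(p^s)` choose the last one which does not centralize `(f i).range` (for large `s` the power is `1`):
`x = x0^(p^s)`, `g = (y i)^(p^s)`; `x^p` centralizes it.  Let `H = (f i).range ⊔ zpowers x ≤ Y`.  `lr_quasi` for the group `H`,
`f i` with values in `H`, gives `RealAct k ((zpowers x).subgroupOf H)` (`zpowers ⟨x, _⟩ = (zpowers x).subgroupOf H`), so
`H ≤ JJ k P` (`jj_le`).
-/

set_option autoImplicit false
open scoped Pointwise
open Pool.Agent.Helper54.PW Pool.Agent.Helper54.RT

namespace Pool.Agent.Helper54.PR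

private theorem range_le_jj {p : ℕ} [Fact p.Prime] {k : Type} [Field k] [IsAlgClosed k]
    [CharP k p] {X : Type} [Group X] [Finite X] (hX : QS X)
    (hr : ∀ s : X ⧸ Subgroup.center X, orderOf s = p → RealAct k (Subgroup.zpowers s))
    {Y : Type} [Group Y] [Finite Y] (f : X →* Y) {P : Subgroup Y} (hP : IsPGroup p P)
    (x : Y) (hxP : x ∈ P) (g : X) (hxg : ∀ u, x * f u * x⁻¹ = f (g * u * g⁻¹))
    (hne : ∃ u, x * f u * x⁻¹ ≠ f u) (hp1 : ∀ u, x ^ p * f u * (x ^ p)⁻¹ = f u) :
    f.range ≤ JJ k P := by
  let H : Subgroup Y := f.range ⊔ Subgroup.zpowers x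
  have hfH : ∀ u, f u ∈ H := fun u => (le_sup_left : f.range ≤ H) ⟨u, rfl⟩
  have hxH : x ∈ H := (le_sup_right : Subgroup.zpowers x ≤ H) (Subgroup.mem_zpowers x)
  let f' : X →* H := f.codRestrict H hfH
  let x' : H := ⟨x, hxH⟩
  have hz : Subgroup.zpowers x' = (Subgroup.zpowers x).subgroupOf H := by
    ext ⟨z, hzH⟩
    rw [Subgroup.mem_subgroupOf, Subgroup.mem_zpowers_iff, Subgroup.mem_zpowers_iff]
    constructor
    · rintro ⟨n, hn⟩
      exact ⟨n, by simpa [x'] using congrArg Subtype.val hn⟩
    · rintro ⟨n, hn⟩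
      exact ⟨n, Subtype.ext (by simpa [x'] using hn)⟩
  have hle : Subgroup.zpowers x ≤ P := by
    rw [Subgroup.zpowers_le]
    exact hxP
  have hxp : IsPGroup p (Subgroup.zpowers x') := by
    rw [hz]
    exact (hP.to_le hle).comap_of_injective H.subtype H.subtype_injective
  have htop : f'.range ⊔ Subgroup.zpowers x' = ⊤ := by
    apply Subgroup.map_injective H.subtype_injective
    rw [Subgroup.map_sup, MonoidHom.map_zpowers, ← MonoidHom.range_eq_map,
      Subgroup.range_subtype, MonoidHom.map_range]
    rfl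
  have h1 : RealAct k (Subgroup.zpowers x') := by
    refine lr_quasi hX hr f' x' g hxp (fun u => Subtype.ext (hxg u)) ?_
      (fun u => Subtype.ext (by simpa [x', f'] using hp1 u)) htop
    obtain ⟨u, hu⟩ := hne
    exact ⟨u, fun h => hu (congrArg Subtype.val h)⟩
  rw [hz] at h1
  exact (le_sup_left : f.range ≤ H).trans (jj_le hle h1)

theorem realAct_product {p : ℕ} [Fact p.Prime] {k : Type} [Field k] [IsAlgClosed k] [CharP k p]
    {ι : Type} [Finite ι] (X : ι → Type) [∀ i, Group (X i)] [∀ i, Finite (X i)]
    (hX : ∀ i, QS (X i))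
    (hr : ∀ i, ∀ s : X i ⧸ Subgroup.center (X i), orderOf s = p →
      RealAct k (Subgroup.zpowers s))
    {Y : Type} [Group Y] [Finite Y] (π : (∀ i, X i) →* Y) (hπ : Function.Surjective π)
    {P : Subgroup Y} (hP : IsPGroup p P) (hgen : Subgroup.normalClosure (P : Set Y) = ⊤) :
    RealAct k P := by
  classical
  apply jj_top hP
  have hconj : ∀ (i : ι) (y : ∀ i, X i) (u : X i),
      π y * π (Pi.mulSingle i u) * (π y)⁻¹ = π (Pi.mulSingle i (y i * u * (y i)⁻¹)) := by
    intro i y u
    rw [← map_mul, ← map_inv, ← map_mul]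
    congr 1
    funext j
    by_cases hj : j = i
    · subst hj
      simp
    · simp [Pi.mulSingle_eq_of_ne hj]
  have key : ∀ i : ι, ∀ u : X i, π (Pi.mulSingle i u) ∈ JJ k P := by
    intro i
    let f : X i →* Y := π.comp (MonoidHom.mulSingle X i)
    have hf : ∀ u, f u = π (Pi.mulSingle i u) := fun u => rfl
    by_cases hc : ∀ x ∈ P, ∀ u, x * f u * x⁻¹ = f u
    · -- `P` centralizes the range
      have hcent : ∀ z : Y, ∀ u, z * f u * z⁻¹ = f u := by
        have hN : (Subgroup.centralizer (f.range : Set Y)).Normal := by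
          refine ⟨fun n hn g => ?_⟩
          rw [Subgroup.mem_centralizer_iff] at hn ⊢
          rintro _ ⟨u, rfl⟩
          obtain ⟨y, rfl⟩ := hπ g
          have h1 : (π y)⁻¹ * f u * π y = f (y⁻¹ i * u * (y⁻¹ i)⁻¹) := by
            have h2 := hconj i y⁻¹ u
            rw [map_inv, inv_inv] at h2
            exact h2
          have h3 := hn _ ⟨_, h1.symm⟩
          calc f u * (π y * n * (π y)⁻¹)
              = π y * (((π y)⁻¹ * f u * π y) * n) * (π y)⁻¹ := by group
            _ = π y * (n * ((π y)⁻¹ * f u * π y)) * (π y)⁻¹ := by rw [h3]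
            _ = π y * n * (π y)⁻¹ * f u := by group
        have h1 : Subgroup.normalClosure (P : Set Y) ≤ Subgroup.centralizer (f.range : Set Y) := by
          apply Subgroup.normalClosure_le_normal
          intro x hx
          rw [SetLike.mem_coe, Subgroup.mem_centralizer_iff]
          rintro _ ⟨u, rfl⟩
          have h2 := hc x hx u
          rw [mul_inv_eq_iff_eq_mul] at h2
          exact h2.symm
        intro z u
        have hz : z ∈ Subgroup.centralizer (f.range : Set Y) := h1 (by rw [hgen]; trivial)
        rw [Subgroup.mem_centralizer_iff] at hz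
        rw [mul_inv_eq_iff_eq_mul]
        exact (hz _ ⟨u, rfl⟩).symm
      have hker : commutator (X i) ≤ f.ker := by
        rw [commutator_def, Subgroup.commutator_le]
        intro a _ b _
        rw [MonoidHom.mem_ker, map_commutatorElement, commutatorElement_eq_one_iff_mul_comm]
        have h2 := hcent (f a) b
        rw [mul_inv_eq_iff_eq_mul] at h2
        exact h2
      rw [(hX i).1] at hker
      intro u
      have hu : f u = 1 := hker (Subgroup.mem_top u)
      rw [← hf, hu]
      exact one_mem _
    · push Not at hc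
      obtain ⟨x0, hx0, u0, hu0⟩ := hc
      obtain ⟨y, hy⟩ := hπ x0
      obtain ⟨N, hN⟩ := hP ⟨x0, hx0⟩
      have hN' : x0 ^ p ^ N = 1 := by simpa using congrArg Subtype.val hN
      have hex : ∃ s, ∀ u, x0 ^ p ^ s * f u * (x0 ^ p ^ s)⁻¹ = f u :=
        ⟨N, fun u => by rw [hN']; simp⟩
      let s := Nat.find hex
      have hs : ∀ u, x0 ^ p ^ s * f u * (x0 ^ p ^ s)⁻¹ = f u := Nat.find_spec hex
      have hs0 : s ≠ 0 := by
        intro h0
        apply hu0
        have := hs u0
        rw [h0, pow_zero, pow_one] at this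
        exact this
      obtain ⟨s', hs'⟩ := Nat.exists_eq_succ_of_ne_zero hs0
      have hmin : ¬ ∀ u, x0 ^ p ^ s' * f u * (x0 ^ p ^ s')⁻¹ = f u :=
        Nat.find_min hex (by show s' < s; omega)
      push Not at hmin
      have hle := range_le_jj (p := p) (k := k) (hX i) (hr i) f hP (x0 ^ p ^ s')
        (pow_mem hx0 _) ((y i) ^ p ^ s') (by
          intro u
          have := hconj i (y ^ p ^ s') u
          rw [map_pow, hy] at this
          exact this) hmin (by
          intro u
          have := hs u
          rw [hs', Nat.succ_eq_add_one, pow_succ, pow_mul] at this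
          exact this)
      intro u
      exact hle ⟨u, rfl⟩
  rw [eq_top_iff]
  intro z _
  obtain ⟨y, rfl⟩ := hπ z
  have h1 : y ∈ (JJ k P).comap π := Subgroup.pi_mem_of_mulSingle_mem y fun i => key i (y i)
  exact h1

end Pool.Agent.Helper54.PR
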