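import Pool.Agent.Helper54.PR.SLQuasi
import Pool.Agent.Helper54.SR.Combine
import Pool.Agent.Helper54.RT.Bridge

/-!
# PR-04: PSL_m(q) in defining characteristic

PROOF.  `realizable_pi_rad` of SR/Combine.lean with `ι = Unit`, `G = SL_m(F) ⧸ center`, `R = ⊥`, `π` = projection
(`QuotientGroup.quotientBot`), `P = zpowers s` (of order `p`; its image in `G ⧸ ⊥` has order `p`), for some place `x` of `k(X)`.  The
normal closure of `zpowers s` is `⊤` by `sl_qs` (its preimage in `SL_m(F)` is a normal subgroup, not central since `s ≠ 1`;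
`|F| ≥ p ≥ 5`).  Then pass to `RealAct` with `exists_cover_of_realizable` as in `ra_solvable_kernel` (RT/Bridge.lean).
-/

set_option autoImplicit false
open scoped Pointwise
open Pool.Agent.Helper54.PW Pool.Agent.Helper54.RT

namespace Pool.Agent.Helper54.PR

theorem win_sl_def {p : ℕ} [Fact p.Prime] (hp5 : 5 ≤ p) {k : Type} [Field k] [IsAlgClosed k]
    [CharP k p] {F : Type} [Field F] [Finite F] [CharP F p] {m : ℕ} (hm : 2 ≤ m)
    (s : Matrix.SpecialLinearGroup (Fin m) F ⧸
      Subgroup.center (Matrix.SpecialLinearGroup (Fin m) F)) (hs : orderOf s = p) :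
    RealAct k (Subgroup.zpowers s) := by
  have hpp : p.Prime := Fact.out
  have hF : 4 ≤ Nat.card F := by
    have h1 : ((Nat.card F : ℕ) : F) = 0 := by
      have := Fintype.ofFinite F
      rw [Nat.card_eq_fintype_card]
      exact Nat.cast_card_eq_zero F
    have h2 : p ∣ Nat.card F := (CharP.cast_eq_zero_iff F p _).1 h1
    have h3 : p ≤ Nat.card F := Nat.le_of_dvd Nat.card_pos h2
    omega
  obtain ⟨-, hnorm⟩ := sl_qs hF hm
  have : Finite (Matrix.SpecialLinearGroup (Fin m) F) := Subtype.finite
  let S := Matrix.SpecialLinearGroup (Fin m) F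
  let G := S ⧸ Subgroup.center S
  have hP : IsPGroup p (Subgroup.zpowers s) :=
    IsPGroup.of_card (n := 1) (by rw [Nat.card_zpowers, hs, pow_one])
  have hs1 : s ≠ 1 := by
    intro h
    rw [h, orderOf_one] at hs
    exact hpp.one_lt.ne hs
  have hgen : Subgroup.normalClosure (Subgroup.zpowers s : Set G) = ⊤ := by
    have hsM : s ∈ Subgroup.normalClosure (Subgroup.zpowers s : Set G) :=
      Subgroup.subset_normalClosure (Subgroup.mem_zpowers s)
    rcases hnorm ((Subgroup.normalClosure (Subgroup.zpowers s : Set G)).comap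
      (QuotientGroup.mk' (Subgroup.center S))) inferInstance with h | h
    · exfalso
      obtain ⟨g, hg⟩ := QuotientGroup.mk'_surjective (Subgroup.center S) s
      apply hs1
      rw [← hg]
      refine (QuotientGroup.eq_one_iff g).2 (h ?_)
      rw [Subgroup.mem_comap, hg]
      exact hsM
    · rw [eq_top_iff]
      intro y _
      obtain ⟨g, rfl⟩ := QuotientGroup.mk'_surjective (Subgroup.center S) y
      have h1 : g ∈ (Subgroup.normalClosure (Subgroup.zpowers s : Set G)).comap
        (QuotientGroup.mk' (Subgroup.center S)) := by rw [h]; exact Subgroup.mem_top g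
      exact h1
  obtain ⟨x, hx, hxk⟩ := exists_ratFunc_place k
  refine ra_of_realizable (Subgroup.zpowers s) x hx hxk ?_
  have hR : Group.IsSolvable (⊥ : Subgroup G) := inferInstance
  let π : (∀ _ : Unit, Matrix.SpecialLinearGroup (Fin m) F) →* G ⧸ (⊥ : Subgroup G) :=
    ((QuotientGroup.mk' (⊥ : Subgroup G)).comp (QuotientGroup.mk' (Subgroup.center S))).comp
      (Pi.evalMonoidHom (fun _ : Unit => Matrix.SpecialLinearGroup (Fin m) F) ())
  have hπ : Function.Surjective π := by
    intro y
    obtain ⟨y, rfl⟩ := QuotientGroup.mk'_surjective (⊥ : Subgroup G) y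
    obtain ⟨g, rfl⟩ := QuotientGroup.mk'_surjective (Subgroup.center S) y
    exact ⟨fun _ => g, rfl⟩
  have hPR : Nat.card ((Subgroup.zpowers s).map (QuotientGroup.mk' (⊥ : Subgroup G))) = p := by
    have h1 : (Subgroup.zpowers s).map (QuotientGroup.mk' (⊥ : Subgroup G)) =
        (Subgroup.zpowers s).map (QuotientGroup.quotientBot (G := G)).symm.toMonoidHom := rfl
    rw [h1, Subgroup.card_map_of_injective
      (f := (QuotientGroup.quotientBot (G := G)).symm.toMonoidHom)
      (QuotientGroup.quotientBot (G := G)).symm.injective, Nat.card_zpowers, hs]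
  exact Pool.Agent.Helper54.SR.realizable_pi_rad (p := p) hp5 (ι := Unit) (fun _ => m)
    (fun _ => hm) (fun _ => F) G ⊥ hR π hπ (Subgroup.zpowers s) hP hgen hPR x hx hxk

end Pool.Agent.Helper54.PR
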