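import Pool.Agent.Helper54.PR.QuasiBase

/-!
# PR-03: the special linear groups are quasisimple

PROOF.  (See Mathlib LinearAlgebra/Projectivization/PSL/PSL2.lean, Stabilizer.lean, Action.lean and
GroupTheory/GroupAction/Iwasawa.lean.)
* `sl_gen`: a subgroup of `SL_m(F)` containing all elementary transvections is everything (Gauss elimination,
  `Matrix.Pivot.exists_list_transvec_mul_diagonal_mul_list_transvec` and products for diagonal matrices of determinant one:
  `diag(a, a⁻¹)` is a product of transvections; or an induction principle for `SpecialLinearGroup` in Mathlib if there is one; also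
  look in Pool/Agent/*/FP and Pool/Agent/*/GS for an existing proof).
* perfect: for `m ≥ 3`, `E_ij(t)` is the commutator of `E_il(t)` and `E_lj(1)`; for `m = 2` it is the commutator of
  `diag(a, a⁻¹)` and `E_12(s)`, `(a^2 - 1) s = t`, with `a ≠ 0`, `a^2 ≠ 1` (`Matrix.SL2.commutator_eq_top`-like lemmas exist for
  `Fin 2`; reindex).
* `sl_qs`: Iwasawa structure of `SL_m(F)` on `ℙ F (Fin m → F)` with `T p = lineStab p.submodule` (commutative:
  `lineStab_isMulCommutative_of_span`; conjugacy: `lineStab_smul`, `PSL.smul_submodule`; generating by `sl_gen`, because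
  `E_ij(t) ∈ lineStab (span e_i)`, `SL2Gen.transvection_mem_lineStab`).  The action is primitive
  (`prePrimitive_SL`).  If the normal subgroup `N` acts trivially on the projective space it is contained in the center
  (`SL_mulAction_ker`), otherwise `commutator ≤ N` (`IwasawaStructure.commutator_le`).
-/

set_option autoImplicit false
open scoped Pointwise

namespace Pool.Agent.Helper54.PR

open Matrix Matrix.SpecialLinearGroup
open scoped LinearAlgebra.Projectivization commutatorElement

private lemma tv_apply {F ι : Type} [Field F] [Fintype ι] [DecidableEq ι] {i j : ι} (hij : i ≠ j)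
    (b : F) (v : ι → F) (k : ι) :
    (Matrix.SpecialLinearGroup.transvection hij b • v) k = v k + if k = i then b * v j else 0 := by
  rw [Matrix.SpecialLinearGroup.smul_def, Matrix.SpecialLinearGroup.transvection_coe,
    add_smul, one_smul, Pi.add_apply]
  congr 1
  change (Matrix.single i j b *ᵥ v) k = _
  rw [Matrix.single_mulVec_eq]
  by_cases h : k = i
  · subst h; simp
  · simp [h]

private lemma dg_apply {F ι : Type} [Field F] [Fintype ι] [DecidableEq ι] {i j : ι} (hij : i ≠ j)
    (a : F) (ha : a ≠ 0) (v : ι → F) (k : ι) :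
    (Matrix.SpecialLinearGroup.diag2n hij a ha • v) k =
      (if k = i then a else if k = j then a⁻¹ else 1) * v k := by
  rw [Matrix.SpecialLinearGroup.smul_def, Matrix.SpecialLinearGroup.diag2n_coe]
  change (Matrix.diagonal _ *ᵥ v) k = _
  rw [Matrix.mulVec_diagonal]

private lemma sl_ext {F ι : Type} [Field F] [Fintype ι] [DecidableEq ι]
    {A B : Matrix.SpecialLinearGroup ι F} (h : ∀ (v : ι → F) (k : ι), (A • v) k = (B • v) k) :
    A = B :=
  Subtype.ext <| Matrix.ext_iff_smul.2 fun w => funext fun k => h w k

private lemma dg_decomp {F ι : Type} [Field F] [Fintype ι] [DecidableEq ι] {i j : ι} (hij : i ≠ j)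
    (a : F) (ha : a ≠ 0) :
    Matrix.SpecialLinearGroup.diag2n hij a ha =
      Matrix.SpecialLinearGroup.transvection hij a *
      Matrix.SpecialLinearGroup.transvection hij.symm (- a⁻¹) *
      Matrix.SpecialLinearGroup.transvection hij a *
      Matrix.SpecialLinearGroup.transvection hij (-1) *
      Matrix.SpecialLinearGroup.transvection hij.symm 1 *
      Matrix.SpecialLinearGroup.transvection hij (-1) := by
  apply sl_ext
  intro v k
  simp only [mul_smul, tv_apply, dg_apply]
  by_cases h1 : k = i
  · subst h1
    simp only [if_true, hij, hij.symm, if_false]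
    field_simp
    ring
  · by_cases h2 : k = j
    · subst h2
      simp only [if_true, hij, hij.symm, if_false]
      field_simp
      ring
    · simp only [h1, h2, if_false]
      ring

private lemma dg_inv {F ι : Type} [Field F] [Fintype ι] [DecidableEq ι] {i j : ι} (hij : i ≠ j)
    (a : F) (ha : a ≠ 0) : (Matrix.SpecialLinearGroup.diag2n hij a ha)⁻¹ =
      Matrix.SpecialLinearGroup.diag2n hij a⁻¹ (inv_ne_zero ha) := by
  apply inv_eq_of_mul_eq_one_right
  apply sl_ext
  intro v k
  simp only [mul_smul, dg_apply, one_smul]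
  by_cases h1 : k = i
  · subst h1
    simp only [if_true]
    field_simp
  · by_cases h2 : k = j
    · subst h2
      simp only [if_true, h1, if_false]
      field_simp
    · simp only [h1, h2, if_false]
      ring

private lemma tv_comm {F ι : Type} [Field F] [Fintype ι] [DecidableEq ι] {i j : ι} (hij : i ≠ j)
    (a : F) (ha : a ≠ 0) (b c : F) (hc : c = b * (a ^ 2 - 1)) :
    ⁅Matrix.SpecialLinearGroup.diag2n hij a ha, Matrix.SpecialLinearGroup.transvection hij b⁆ =
      Matrix.SpecialLinearGroup.transvection hij c := by
  rw [commutatorElement_def, dg_inv hij a ha,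
    Matrix.SpecialLinearGroup.transvection_inv hij b]
  apply sl_ext
  intro v k
  simp only [mul_smul, tv_apply, dg_apply, hc]
  by_cases h1 : k = i
  · subst h1
    simp only [if_true, hij, hij.symm, if_false]
    field_simp
    ring
  · by_cases h2 : k = j
    · subst h2
      simp only [if_true, hij, hij.symm, if_false]
      field_simp
      ring
    · simp only [h1, h2, if_false]
      ring

private lemma field_cond {F : Type} [Field F] [Finite F] (hF : 4 ≤ Nat.card F) :
    ∃ a : F, a ≠ 0 ∧ a ^ 2 ≠ 1 := by
  obtain ⟨x, hx⟩ : IsCyclic Fˣ := by infer_instance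
  refine ⟨x, Units.ne_zero x, fun h ↦ ?_⟩
  grw [Nat.card_eq_card_units_add_one F, ← orderOf_eq_card_of_forall_mem_zpowers hx,
    orderOf_le_of_pow_eq_one zero_lt_two (Units.ext <| by simpa using h)] at hF
  omega

theorem sl_gen {F : Type} [Field F] {m : ℕ}
    (K : Subgroup (Matrix.SpecialLinearGroup (Fin m) F))
    (h : ∀ (i j : Fin m) (hij : i ≠ j) (t : F), Matrix.SpecialLinearGroup.transvection hij t ∈ K) :
    K = ⊤ := by
  rw [eq_top_iff]
  intro M _
  by_cases hm : 2 ≤ m
  · have : Nontrivial (Fin m) := Fin.nontrivial_iff_two_le.2 hm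
    refine Matrix.SpecialLinearGroup.diagonal_transvection_induction' (fun A => A ∈ K) M
      (fun i j hij c hc => ?_) h (fun A B hA hB => K.mul_mem hA hB)
    rw [dg_decomp hij c hc]
    exact K.mul_mem (K.mul_mem (K.mul_mem (K.mul_mem (K.mul_mem (h _ _ _ _) (h _ _ _ _))
      (h _ _ _ _)) (h _ _ _ _)) (h _ _ _ _)) (h _ _ _ _)
  · have : Subsingleton (Fin m) := by
      rw [Fin.subsingleton_iff_le_one]
      omega
    have h1 : M = 1 := Subsingleton.elim _ _
    rw [h1]
    exact K.one_mem

private lemma sl_perf {F : Type} [Field F] [Finite F] (hF : 4 ≤ Nat.card F) {m : ℕ} :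
    commutator (Matrix.SpecialLinearGroup (Fin m) F) = ⊤ := by
  obtain ⟨a, ha, ha2⟩ := field_cond hF
  apply sl_gen
  intro i j hij t
  rw [← tv_comm hij a ha (t / (a ^ 2 - 1)) t (div_mul_cancel₀ t (sub_ne_zero_of_ne ha2)).symm]
  exact Subgroup.commutator_mem_commutator (Subgroup.mem_top _) (Subgroup.mem_top _)

private noncomputable def slIwasawa {F : Type} [Field F] {m : ℕ} :
    MulAction.IwasawaStructure (Matrix.SpecialLinearGroup (Fin m) F) (ℙ F (Fin m → F)) where
  T p := lineStab p.submodule
  is_comm p := by
    rw [← Projectivization.mk_rep p, Projectivization.submodule_mk]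
    exact lineStab_isMulCommutative_of_span p.rep p.rep_nonzero
  is_conj g p := by
    rw [PSL.smul_submodule, Matrix.SpecialLinearGroup.lineStab_smul]
  is_generator := by
    apply sl_gen
    intro i j hij t
    have h0 : (Pi.single i (1 : F) : Fin m → F) ≠ 0 := Pi.single_ne_zero_iff.2 one_ne_zero
    have h1 := SL2Gen.transvection_mem_lineStab hij t
    rw [← Projectivization.submodule_mk (K := F) _ h0] at h1
    exact Subgroup.mem_iSup_of_mem (S := fun p : ℙ F (Fin m → F) => lineStab p.submodule) _ h1

theorem sl_qs {F : Type} [Field F] [Finite F] (hF : 4 ≤ Nat.card F) {m : ℕ} (hm : 2 ≤ m) :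
    QS (Matrix.SpecialLinearGroup (Fin m) F) := by
  have _ := hm
  refine ⟨sl_perf hF, fun N hN => ?_⟩
  by_cases h : MulAction.fixedPoints N (ℙ F (Fin m → F)) = .univ
  · left
    rw [← Projectivization.SL_mulAction_ker]
    intro n hn
    rw [MonoidHom.mem_ker]
    ext1 x
    exact Set.eq_univ_iff_forall.mp h x ⟨n, hn⟩
  · right
    rw [eq_top_iff, ← sl_perf hF]
    exact slIwasawa.commutator_le N h

end Pool.Agent.Helper54.PR
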