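import Mathlib

/-!
# Purely group theoretic part of PR/Quasi.lean (see there for the proof sketch)
-/

set_option autoImplicit false
open scoped Pointwise

namespace Pool.Agent.Helper54.PR

/-- `X` is perfect and its normal subgroups are central or equal to `X` -/
def QS (X : Type) [Group X] : Prop :=
  commutator X = ⊤ ∧ ∀ N : Subgroup X, N.Normal → N ≤ Subgroup.center X ∨ N = ⊤

section lrqaux
variable {p : ℕ} [Fact p.Prime] {X H : Type} [Group X] [Group H]

theorem lrq_perfect_hom {A : Type} [Group A] (hX : commutator X = ⊤) (f : X →* A)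
    (hc : ∀ u v, f u * f v = f v * f u) (u : X) : f u = 1 := by
  have h1 : commutator X ≤ f.ker := by
    rw [commutator_def, Subgroup.commutator_le]
    intro a _ b _
    rw [MonoidHom.mem_ker, map_commutatorElement, commutatorElement_eq_one_iff_mul_comm]
    exact hc a b
  rw [hX] at h1
  exact h1 (Subgroup.mem_top u)

theorem lrq_central (hX : commutator X = ⊤) (g : X)
    (h : ∀ v, v * g * v⁻¹ * g⁻¹ ∈ Subgroup.center X) : g ∈ Subgroup.center X := by
  have hmul : ∀ v w, (v * w) * g * (v * w)⁻¹ * g⁻¹ = (v * g * v⁻¹ * g⁻¹) * (w * g * w⁻¹ * g⁻¹) := by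
    intro v w
    have h1 := (Subgroup.mem_center_iff.1 (h w)) v
    have h2 : (v * w) * g * (v * w)⁻¹ * g⁻¹ = (v * (w * g * w⁻¹ * g⁻¹)) * g * v⁻¹ * g⁻¹ := by group
    rw [h2, h1]
    have h3 := (Subgroup.mem_center_iff.1 (h w)) (v * g * v⁻¹ * g⁻¹)
    rw [h3]
    group
  let c : X →* X :=
    { toFun := fun v => v * g * v⁻¹ * g⁻¹
      map_one' := by group
      map_mul' := hmul }
  have hc : ∀ v, c v = 1 := lrq_perfect_hom hX c (fun u v => ((Subgroup.mem_center_iff.1 (h u)) _).symm)
  rw [Subgroup.mem_center_iff]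
  intro v
  have h1 : v * g * v⁻¹ * g⁻¹ = 1 := hc v
  have h2 : v * g = (v * g * v⁻¹ * g⁻¹) * (g * v) := by group
  rw [h2, h1, one_mul]

theorem lrq_core (hX : QS X) (f : X →* H) (x : H) (g : X)
    (hxg : ∀ u, x * f u * x⁻¹ = f (g * u * g⁻¹))
    (hne : ∃ u, x * f u * x⁻¹ ≠ f u) (hp1 : ∀ u, x ^ p * f u * (x ^ p)⁻¹ = f u)
    (htop : f.range ⊔ Subgroup.zpowers x = ⊤) :
    ∃ (C : Subgroup H) (_ : C.Normal), Group.IsSolvable C ∧
      Subgroup.normalClosure (Subgroup.zpowers x : Set H) = ⊤ ∧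
      ∃ (s : X ⧸ Subgroup.center X) (e : X ⧸ Subgroup.center X ≃* H ⧸ C), orderOf s = p ∧
        (Subgroup.zpowers s).map e.toMonoidHom = (Subgroup.zpowers x).map (QuotientGroup.mk' C) := by
  obtain ⟨hperf, hnorm⟩ := hX
  have hxg' : ∀ u, x⁻¹ * f u * x = f (g⁻¹ * u * g) := by
    intro u
    have h := hxg (g⁻¹ * u * g)
    have h1 : g * (g⁻¹ * u * g) * g⁻¹ = u := by group
    rw [h1] at h
    rw [← h]
    group
  have hrn : (f.range : Subgroup H).Normal := by
    have h1 : (f.range ⊔ Subgroup.zpowers x : Subgroup H) ≤ Subgroup.normalizer (f.range : Set H) := by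
      refine sup_le Subgroup.le_normalizer ?_
      rw [Subgroup.zpowers_le, Subgroup.mem_normalizer_iff]
      intro h
      constructor
      · rintro ⟨u, rfl⟩
        exact ⟨_, (hxg u).symm⟩
      · rintro ⟨u, hu⟩
        refine ⟨g⁻¹ * u * g, ?_⟩
        rw [← hxg', hu]
        group
    rw [htop, top_le_iff] at h1
    exact Subgroup.normalizer_eq_top_iff.1 h1
  have hdec : ∀ h : H, ∃ (u : X) (n : ℤ), h = f u * x ^ n := by
    intro h
    have h1 : h ∈ f.range ⊔ Subgroup.zpowers x := by rw [htop]; exact Subgroup.mem_top h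
    obtain ⟨y, ⟨u, rfl⟩, z, ⟨n, rfl⟩, rfl⟩ := Subgroup.mem_sup_of_normal_left.1 h1
    exact ⟨u, n, rfl⟩
  let C : Subgroup H := Subgroup.centralizer (f.range : Set H)
  have hCn : C.Normal := inferInstance
  have hCmem : ∀ h : H, h ∈ C ↔ ∀ u, f u * h = h * f u := by
    intro h
    rw [Subgroup.mem_centralizer_iff]
    constructor
    · intro h1 u
      exact h1 (f u) ⟨u, rfl⟩
    · rintro h1 _ ⟨u, rfl⟩
      exact h1 u
  -- solvability
  have hCs : Group.IsSolvable C := by
    let q : C →* H ⧸ (f.range : Subgroup H) := (QuotientGroup.mk' f.range).comp C.subtype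
    have hcomm : ∀ a b : H ⧸ (f.range : Subgroup H), a * b = b * a := by
      have hpow : ∀ a : H ⧸ (f.range : Subgroup H), ∃ n : ℤ, a = (QuotientGroup.mk' f.range x) ^ n := by
        intro a
        obtain ⟨h, rfl⟩ := QuotientGroup.mk'_surjective f.range a
        obtain ⟨u, n, rfl⟩ := hdec h
        refine ⟨n, ?_⟩
        have h1 : QuotientGroup.mk' f.range (f u) = 1 :=
          (QuotientGroup.eq_one_iff (f u)).2 ⟨u, rfl⟩
        rw [map_mul, h1, one_mul, map_zpow]
      intro a b
      obtain ⟨n, rfl⟩ := hpow a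
      obtain ⟨m, rfl⟩ := hpow b
      rw [← zpow_add, ← zpow_add, add_comm]
    have s1 : Group.IsSolvable (H ⧸ (f.range : Subgroup H)) := Group.isSolvable_of_comm hcomm
    have s2 : Group.IsSolvable q.ker := by
      refine Group.isSolvable_of_comm ?_
      rintro ⟨⟨a, ha⟩, ha'⟩ ⟨⟨b, hb⟩, hb'⟩
      have h1 : a ∈ f.range := (QuotientGroup.eq_one_iff a).1 (MonoidHom.mem_ker.1 ha')
      obtain ⟨u, rfl⟩ := h1
      apply Subtype.ext
      apply Subtype.ext
      exact (hCmem b).1 hb u
    exact Group.isSolvable_of_ker_le_range q.ker.subtype q (by rw [Subgroup.range_subtype])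
  -- x is congruent to f g
  have hxC : (f g)⁻¹ * x ∈ C := by
    rw [hCmem]
    intro u
    have h1 := hxg u
    rw [map_mul, map_mul, map_inv] at h1
    have h2 : x * f u = f g * f u * (f g)⁻¹ * x := by rw [← h1]; group
    have h3 : (f g)⁻¹ * x * f u = (f g)⁻¹ * (x * f u) := by group
    rw [h3, h2]
    group
  have hmk : QuotientGroup.mk' C x = QuotientGroup.mk' C (f g) := by
    have h1 : ((f g : H) : H ⧸ C) = (x : H ⧸ C) := QuotientGroup.eq.2 hxC
    exact h1.symm
  let φ : X →* H ⧸ C := (QuotientGroup.mk' C).comp f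
  have hφs : Function.Surjective φ := by
    intro a
    obtain ⟨h, rfl⟩ := QuotientGroup.mk'_surjective C a
    obtain ⟨u, n, rfl⟩ := hdec h
    refine ⟨u * g ^ n, ?_⟩
    rw [map_mul (QuotientGroup.mk' C), map_zpow (QuotientGroup.mk' C), hmk, ← map_zpow, ← map_mul,
      ← map_zpow, ← map_mul]
    rfl
  have hφk : ∀ u, u ∈ φ.ker ↔ f u ∈ C := fun u => QuotientGroup.eq_one_iff (f u)
  have hker : φ.ker = Subgroup.center X := by
    refine le_antisymm ?_ ?_
    · rcases hnorm φ.ker inferInstance with h | h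
      · exact h
      · exfalso
        obtain ⟨u, hu⟩ := hne
        have h1 : ∀ u, f u = 1 := lrq_perfect_hom hperf f (fun a b => by
          have h2 : b ∈ φ.ker := by rw [h]; exact Subgroup.mem_top b
          exact (hCmem _).1 ((hφk b).1 h2) a)
        apply hu
        rw [h1 u]
        group
    · intro z hz
      rw [hφk, hCmem]
      intro u
      rw [← map_mul, ← map_mul, Subgroup.mem_center_iff.1 hz u]
  have hgc : g ∉ Subgroup.center X := by
    intro h
    obtain ⟨u, hu⟩ := hne
    apply hu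
    rw [hxg]
    have h1 := Subgroup.mem_center_iff.1 h u
    have h2 : g * u * g⁻¹ = u := by rw [← h1]; group
    rw [h2]
  have hpow : ∀ (n : ℕ) u, x ^ n * f u * (x ^ n)⁻¹ = f (g ^ n * u * (g ^ n)⁻¹) := by
    intro n
    induction n with
    | zero => intro u; simp
    | succ n ih =>
      intro u
      have h1 : x ^ (n + 1) * f u * (x ^ (n + 1))⁻¹ = x * (x ^ n * f u * (x ^ n)⁻¹) * x⁻¹ := by
        rw [pow_succ']; group
      rw [h1, ih, hxg]
      congr 1
      rw [pow_succ']; group
  have hgp : g ^ p ∈ φ.ker := by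
    rw [hφk, hCmem]
    intro u
    have h1 := hpow p u
    rw [hp1, map_mul, map_mul, map_inv] at h1
    calc f u * f (g ^ p) = (f (g ^ p) * f u * (f (g ^ p))⁻¹) * f (g ^ p) := by rw [← h1]
      _ = f (g ^ p) * f u := by group
  -- normal closure
  have hncl : Subgroup.normalClosure (Subgroup.zpowers x : Set H) = ⊤ := by
    let M : Subgroup H := Subgroup.normalClosure (Subgroup.zpowers x : Set H)
    have hMn : M.Normal := Subgroup.normalClosure_normal
    have hxM : x ∈ M := Subgroup.subset_normalClosure (Subgroup.mem_zpowers x)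
    rcases hnorm (M.comap f) inferInstance with h | h
    · exfalso
      apply hgc
      refine lrq_central hperf g (fun v => ?_)
      apply h
      rw [Subgroup.mem_comap]
      have h1 : f (v * g * v⁻¹ * g⁻¹) = (f v * x * (f v)⁻¹) * x⁻¹ := by
        have h2 := hxg v⁻¹
        have h3 : f (v * g * v⁻¹ * g⁻¹) = f v * f (g * v⁻¹ * g⁻¹) := by
          rw [← map_mul]; congr 1; group
        rw [h3, ← h2, map_inv]
        group
      rw [h1]
      exact M.mul_mem (hMn.conj_mem x hxM (f v)) (M.inv_mem hxM)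
    · rw [eq_top_iff, ← htop]
      refine sup_le ?_ ?_
      · rintro _ ⟨u, rfl⟩
        have h1 : u ∈ M.comap f := by rw [h]; exact Subgroup.mem_top u
        exact h1
      · rw [Subgroup.zpowers_le]; exact hxM
  let e1 : X ⧸ φ.ker ≃* H ⧸ C := QuotientGroup.quotientKerEquivOfSurjective φ hφs
  let e0 : X ⧸ Subgroup.center X ≃* X ⧸ φ.ker := QuotientGroup.quotientMulEquivOfEq hker.symm
  refine ⟨C, hCn, hCs, hncl, QuotientGroup.mk' _ g, e0.trans e1, ?_, ?_⟩
  · refine orderOf_eq_prime ?_ ?_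
    · rw [← map_pow]
      exact (QuotientGroup.eq_one_iff _).2 (hker ▸ hgp)
    · intro h
      exact hgc ((QuotientGroup.eq_one_iff _).1 h)
  · rw [MonoidHom.map_zpowers, MonoidHom.map_zpowers, hmk]
    rfl

end lrqaux

end Pool.Agent.Helper54.PR
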