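import Pool.Agent.Helper54.PR.Block
import Pool.Agent.Helper54.RT.PPrime

/-!
# PR-06: PSL_m(q) in cross characteristic

PROOF.  Let `s` be the class of `g`; `g^p` is in the center, so it is a scalar matrix `c • 1`, `c ≠ 0`
(`Matrix.SpecialLinearGroup.mem_center_iff` or `scalar_eq_self_of_mem_center`).  `exists_block` gives `A, B, I` with `A g B` block
diagonal.  Let `U1` be the set of all `u` in `SL_m(F)` such that `A u B - 1` has nonzero entries only at places `(i, j)` with
`i ∈ I`, `j ∉ I`; `U2` the same with `i ∉ I`, `j ∈ I`.  These are subgroups (`(1 + M)(1 + N) = 1 + M + N`), commutative, every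
element has order dividing the characteristic of `F`, which is not `p`, so their orders are prime to `p`; `g` normalizes them
(`A g B` is block diagonal, `A (g u g⁻¹) B = (A g B)(A u B)(A g B)⁻¹`).
Let `G = SL_m(F) ⧸ center`, `P = zpowers s`, `Q1`, `Q2` the images of `U1`, `U2` in `G`.  `Qi ⊔ P` is solvable (`Qi` commutative,
normalized by `s`) and `P.relIndex (Qi ⊔ P)` divides `|Qi|`, so `Qi ≤ JJ k P ⊔ N(P)` by `jj_sylow_solvable`.  By `block_gen` applied
to the preimage of `JJ k P ⊔ N(P)`, `JJ k P ⊔ N(P) = ⊤`.  The normal closure of `P` is `⊤` by `sl_qs` (its preimage is normal and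
not central).  `jj_crit`.
-/

set_option autoImplicit false
open scoped Pointwise
open Pool.Agent.Helper54.PW Pool.Agent.Helper54.RT

namespace Pool.Agent.Helper54.PR

/-! ### groups -/

private theorem cross_sup {p : ℕ} {G : Type} [Group G] [Finite G] (Q P : Subgroup G)
    (hQ : ∀ a ∈ Q, ∀ b ∈ Q, a * b = b * a) (hn : ∀ y ∈ P, ∀ a ∈ Q, y * a * y⁻¹ ∈ Q)
    (hPc : ∀ a ∈ P, ∀ b ∈ P, a * b = b * a) (hp : ¬ p ∣ Nat.card Q) :
    Group.IsSolvable ↥(Q ⊔ P) ∧ ¬ p ∣ P.relIndex (Q ⊔ P) := by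
  have hPN : P ≤ Subgroup.normalizer (Q : Set G) := by
    intro y hy
    rw [Subgroup.mem_normalizer_iff]
    intro a
    refine ⟨fun ha => hn y hy a ha, fun ha => ?_⟩
    have h1 := hn y⁻¹ (inv_mem hy) _ ha
    have h2 : y⁻¹ * (y * a * y⁻¹) * y⁻¹⁻¹ = a := by group
    rwa [h2] at h1
  have hQK : Q ≤ Q ⊔ P := le_sup_left
  have hPK : P ≤ Q ⊔ P := le_sup_right
  have hnorm : (Q.subgroupOf (Q ⊔ P)).Normal := by
    rw [Subgroup.normal_subgroupOf_iff_le_normalizer hQK]
    exact sup_le Subgroup.le_normalizer hPN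
  have htop : Q.subgroupOf (Q ⊔ P) ⊔ P.subgroupOf (Q ⊔ P) = ⊤ := by
    rw [← Subgroup.subgroupOf_sup hQK hPK, Subgroup.subgroupOf_self]
  constructor
  · have hs1 : Group.IsSolvable (Q.subgroupOf (Q ⊔ P)) := by
      apply Group.isSolvable_of_comm
      rintro ⟨⟨a, ha⟩, ha'⟩ ⟨⟨b, hb⟩, hb'⟩
      apply Subtype.ext
      apply Subtype.ext
      exact hQ a (Subgroup.mem_subgroupOf.1 ha') b (Subgroup.mem_subgroupOf.1 hb')
    have hs2 : Group.IsSolvable (P.subgroupOf (Q ⊔ P)) := by
      apply Group.isSolvable_of_comm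
      rintro ⟨⟨a, ha⟩, ha'⟩ ⟨⟨b, hb⟩, hb'⟩
      apply Subtype.ext
      apply Subtype.ext
      exact hPc a (Subgroup.mem_subgroupOf.1 ha') b (Subgroup.mem_subgroupOf.1 hb')
    have hmap : (P.subgroupOf (Q ⊔ P)).map (QuotientGroup.mk' (Q.subgroupOf (Q ⊔ P))) = ⊤ := by
      have h1 := congrArg (Subgroup.map (QuotientGroup.mk' (Q.subgroupOf (Q ⊔ P)))) htop
      rw [Subgroup.map_sup, QuotientGroup.map_mk'_self, bot_sup_eq,
        Subgroup.map_top_of_surjective _ (QuotientGroup.mk'_surjective _)] at h1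
      exact h1
    have hs3 : Group.IsSolvable (↥(Q ⊔ P) ⧸ Q.subgroupOf (Q ⊔ P)) := by
      refine Group.isSolvable_of_surjective (f := (QuotientGroup.mk' (Q.subgroupOf (Q ⊔ P))).comp
        (P.subgroupOf (Q ⊔ P)).subtype) ?_
      rw [← MonoidHom.range_eq_top, MonoidHom.range_comp, Subgroup.range_subtype]
      exact hmap
    refine Group.isSolvable_of_ker_le_range (Q.subgroupOf (Q ⊔ P)).subtype
      (QuotientGroup.mk' (Q.subgroupOf (Q ⊔ P))) ?_
    rw [QuotientGroup.ker_mk', Subgroup.range_subtype]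
  · intro hd
    apply hp
    have h1 := (P.subgroupOf (Q ⊔ P)).card_mul_index
    have h2 := (Q.subgroupOf (Q ⊔ P)).card_mul_index
    have h3 : (Q.subgroupOf (Q ⊔ P)).index =
        (Q.subgroupOf (Q ⊔ P)).relIndex (P.subgroupOf (Q ⊔ P)) := by
      rw [← Subgroup.relIndex_top_right, ← htop, Subgroup.relIndex_sup_left]
    have h4 := ((Q.subgroupOf (Q ⊔ P)).subgroupOf (P.subgroupOf (Q ⊔ P))).card_mul_index
    have h5 : Nat.card (Q.subgroupOf (Q ⊔ P)) = Nat.card Q :=
      Nat.card_congr (Subgroup.subgroupOfEquivOfLe hQK).toEquiv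
    rw [h3, ← h1, ← h4, h5] at h2
    change Nat.card Q * _ = _ * (Q.subgroupOf (Q ⊔ P)).relIndex (P.subgroupOf (Q ⊔ P)) * _ at h2
    set r := (Q.subgroupOf (Q ⊔ P)).relIndex (P.subgroupOf (Q ⊔ P)) with hr
    have hr0 : 0 < r := Nat.pos_of_ne_zero Subgroup.FiniteIndex.index_ne_zero
    have h6 : Nat.card Q = Nat.card ((Q.subgroupOf (Q ⊔ P)).subgroupOf (P.subgroupOf (Q ⊔ P))) *
        (P.subgroupOf (Q ⊔ P)).index := by
      apply Nat.eq_of_mul_eq_mul_right hr0
      rw [h2]
      ring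
    rw [h6]
    exact dvd_mul_of_dvd_right hd _

/-! ### block unipotent matrices -/

section blocks

variable {F : Type} [Field F] {m : ℕ} {A B : Matrix (Fin m) (Fin m) F}

private theorem cross_conj_mul (hAB : A * B = 1) (M N : Matrix (Fin m) (Fin m) F) :
    A * (M * N) * B = (A * M * B) * (A * N * B) := by
  have hBA : B * A = 1 := mul_eq_one_comm.mp hAB
  calc A * (M * N) * B = A * M * 1 * N * B := by noncomm_ring
    _ = A * M * (B * A) * N * B := by rw [hBA]
    _ = (A * M * B) * (A * N * B) := by noncomm_ring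

private theorem cross_conj_inj (hAB : A * B = 1) {M N : Matrix (Fin m) (Fin m) F}
    (h : A * M * B = A * N * B) : M = N := by
  have hBA : B * A = 1 := mul_eq_one_comm.mp hAB
  have h1 : ∀ M : Matrix (Fin m) (Fin m) F, B * (A * M * B) * A = M := by
    intro M
    calc B * (A * M * B) * A = (B * A) * M * (B * A) := by noncomm_ring
      _ = M := by rw [hBA, one_mul, mul_one]
  rw [← h1 M, h, h1 N]

private theorem cross_nil {T : Fin m → Fin m → Prop} (hT : ∀ i l j, T i l → T l j → False)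
    {M N : Matrix (Fin m) (Fin m) F} (hM : ∀ i j, M i j ≠ 0 → T i j)
    (hN : ∀ i j, N i j ≠ 0 → T i j) : M * N = 0 := by
  ext i j
  rw [Matrix.mul_apply, Matrix.zero_apply]
  refine Finset.sum_eq_zero fun l _ => ?_
  by_contra h
  exact hT i l j (hM i l (left_ne_zero_of_mul h)) (hN l j (right_ne_zero_of_mul h))

/-- the nilpotent part -/
private def nn (A B u : Matrix (Fin m) (Fin m) F) : Matrix (Fin m) (Fin m) F := A * u * B - 1

private theorem nn_spec (A B u : Matrix (Fin m) (Fin m) F) : A * u * B = 1 + nn A B u := by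
  rw [nn]
  abel

private theorem nn_ne {T : Fin m → Fin m → Prop} {u : Matrix (Fin m) (Fin m) F}
    (h : ∀ i j, (A * u * B) i j ≠ (1 : Matrix (Fin m) (Fin m) F) i j → T i j) :
    ∀ i j, nn A B u i j ≠ 0 → T i j := by
  intro i j hij
  apply h
  intro h1
  apply hij
  rw [nn, Matrix.sub_apply, h1, sub_self]

private theorem of_nn {T : Fin m → Fin m → Prop} {u : Matrix (Fin m) (Fin m) F}
    (h : ∀ i j, nn A B u i j ≠ 0 → T i j) :
    ∀ i j, (A * u * B) i j ≠ (1 : Matrix (Fin m) (Fin m) F) i j → T i j := by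
  intro i j hij
  apply h
  intro h1
  apply hij
  rw [nn_spec, Matrix.add_apply, h1, add_zero]

private theorem nn_mul (hAB : A * B = 1) {T : Fin m → Fin m → Prop}
    (hT : ∀ i l j, T i l → T l j → False) {u v : Matrix (Fin m) (Fin m) F}
    (hu : ∀ i j, nn A B u i j ≠ 0 → T i j) (hv : ∀ i j, nn A B v i j ≠ 0 → T i j) :
    nn A B (u * v) = nn A B u + nn A B v := by
  have h1 : A * (u * v) * B = (1 + nn A B u) * (1 + nn A B v) := by
    rw [cross_conj_mul hAB, nn_spec A B u, nn_spec A B v]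
  have h2 := cross_nil hT hu hv
  rw [nn, h1, mul_add, add_mul, add_mul, h2, mul_one, mul_one, one_mul]
  abel

/-- the group of the block unipotent matrices -/
private def UU (hAB : A * B = 1) (T : Fin m → Fin m → Prop)
    (hT : ∀ i l j, T i l → T l j → False) : Subgroup (Matrix.SpecialLinearGroup (Fin m) F) where
  carrier := {u | ∀ i j, nn A B (u : Matrix (Fin m) (Fin m) F) i j ≠ 0 → T i j}
  mul_mem' := by
    intro u v hu hv i j hij
    rw [Matrix.SpecialLinearGroup.coe_mul, nn_mul hAB hT hu hv, Matrix.add_apply] at hij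
    by_contra h
    apply hij
    have h1 : nn A B (u : Matrix (Fin m) (Fin m) F) i j = 0 := by
      by_contra h2
      exact h (hu i j h2)
    have h2 : nn A B (v : Matrix (Fin m) (Fin m) F) i j = 0 := by
      by_contra h3
      exact h (hv i j h3)
    rw [h1, h2, add_zero]
  one_mem' := by
    intro i j hij
    exfalso
    apply hij
    rw [Matrix.SpecialLinearGroup.coe_one, nn, mul_one, hAB, sub_self, Matrix.zero_apply]
  inv_mem' := by
    intro u hu
    have h1 : nn A B ((u⁻¹ : Matrix.SpecialLinearGroup (Fin m) F) : Matrix (Fin m) (Fin m) F) =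
        -nn A B (u : Matrix (Fin m) (Fin m) F) := by
      have h2 : (1 + nn A B (u : Matrix (Fin m) (Fin m) F)) *
          (A * ((u⁻¹ : Matrix.SpecialLinearGroup (Fin m) F) : Matrix (Fin m) (Fin m) F) * B) =
          1 := by
        rw [← nn_spec, ← cross_conj_mul hAB, ← Matrix.SpecialLinearGroup.coe_mul, mul_inv_cancel,
          Matrix.SpecialLinearGroup.coe_one, mul_one, hAB]
      have h3 : (1 - nn A B (u : Matrix (Fin m) (Fin m) F)) *
          (1 + nn A B (u : Matrix (Fin m) (Fin m) F)) = 1 := by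
        have h4 := cross_nil hT hu hu
        rw [sub_mul, mul_add, mul_add, h4, one_mul, mul_one, one_mul, add_zero,
          add_sub_cancel_right]
      have h5 : A * ((u⁻¹ : Matrix.SpecialLinearGroup (Fin m) F) : Matrix (Fin m) (Fin m) F) * B =
          1 - nn A B (u : Matrix (Fin m) (Fin m) F) := by
        have h6 := congrArg (fun M => (1 - nn A B (u : Matrix (Fin m) (Fin m) F)) * M) h2
        simp only [mul_one] at h6
        rw [← mul_assoc, h3, one_mul] at h6
        exact h6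
      rw [nn, h5]
      abel
    intro i j hij
    apply hu
    intro h0
    apply hij
    change nn A B ((u⁻¹ : Matrix.SpecialLinearGroup (Fin m) F) : Matrix (Fin m) (Fin m) F) i j = 0
    rw [h1, Matrix.neg_apply, h0, neg_zero]

private theorem UU_comm (hAB : A * B = 1) {T : Fin m → Fin m → Prop}
    (hT : ∀ i l j, T i l → T l j → False) {u v : Matrix.SpecialLinearGroup (Fin m) F}
    (hu : u ∈ UU hAB T hT) (hv : v ∈ UU hAB T hT) : u * v = v * u := by
  apply Subtype.ext
  change ((u * v : Matrix.SpecialLinearGroup (Fin m) F) : Matrix (Fin m) (Fin m) F) =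
    ((v * u : Matrix.SpecialLinearGroup (Fin m) F) : Matrix (Fin m) (Fin m) F)
  rw [Matrix.SpecialLinearGroup.coe_mul, Matrix.SpecialLinearGroup.coe_mul]
  apply cross_conj_inj hAB
  rw [nn_spec, nn_spec, nn_mul hAB hT hu hv, nn_mul hAB hT hv hu, add_comm (nn A B _)]

private theorem UU_pow (hAB : A * B = 1) {T : Fin m → Fin m → Prop}
    (hT : ∀ i l j, T i l → T l j → False) {u : Matrix.SpecialLinearGroup (Fin m) F}
    (hu : u ∈ UU hAB T hT) (n : ℕ) :
    nn A B ((u ^ n : Matrix.SpecialLinearGroup (Fin m) F) : Matrix (Fin m) (Fin m) F) =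
      (n : F) • nn A B (u : Matrix (Fin m) (Fin m) F) := by
  induction n with
  | zero =>
    rw [pow_zero, Nat.cast_zero, zero_smul, Matrix.SpecialLinearGroup.coe_one, nn, mul_one, hAB,
      sub_self]
  | succ n ih =>
    have h1 : u ^ n ∈ UU hAB T hT := pow_mem hu n
    rw [pow_succ, Matrix.SpecialLinearGroup.coe_mul, nn_mul hAB hT h1 hu, ih, Nat.cast_succ,
      add_smul, one_smul]

private theorem UU_conj (hAB : A * B = 1) {T : Fin m → Fin m → Prop}
    (hT : ∀ i l j, T i l → T l j → False) {I : Finset (Fin m)}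
    (hTb : ∀ i i' j j', (i ∈ I ↔ i' ∈ I) → (j ∈ I ↔ j' ∈ I) → T i j → T i' j')
    {x u : Matrix.SpecialLinearGroup (Fin m) F}
    (hx : ∀ i j, ¬ (i ∈ I ↔ j ∈ I) → (A * (x : Matrix (Fin m) (Fin m) F) * B) i j = 0)
    (hx' : ∀ i j, ¬ (i ∈ I ↔ j ∈ I) →
      (A * ((x⁻¹ : Matrix.SpecialLinearGroup (Fin m) F) : Matrix (Fin m) (Fin m) F) * B) i j = 0)
    (hu : u ∈ UU hAB T hT) : x * u * x⁻¹ ∈ UU hAB T hT := by
  have h1 : nn A B ((x * u * x⁻¹ : Matrix.SpecialLinearGroup (Fin m) F) :
      Matrix (Fin m) (Fin m) F) =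
      (A * (x : Matrix (Fin m) (Fin m) F) * B) * nn A B (u : Matrix (Fin m) (Fin m) F) *
      (A * ((x⁻¹ : Matrix.SpecialLinearGroup (Fin m) F) : Matrix (Fin m) (Fin m) F) * B) := by
    have h2 : (A * (x : Matrix (Fin m) (Fin m) F) * B) *
        (A * ((x⁻¹ : Matrix.SpecialLinearGroup (Fin m) F) : Matrix (Fin m) (Fin m) F) * B) =
        1 := by
      rw [← cross_conj_mul hAB, ← Matrix.SpecialLinearGroup.coe_mul, mul_inv_cancel,
        Matrix.SpecialLinearGroup.coe_one, mul_one, hAB]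
    rw [nn, Matrix.SpecialLinearGroup.coe_mul, Matrix.SpecialLinearGroup.coe_mul,
      cross_conj_mul hAB, cross_conj_mul hAB, nn_spec A B (u : Matrix (Fin m) (Fin m) F), mul_add,
      add_mul, mul_one, h2]
    abel
  intro i j hij
  change nn A B ((x * u * x⁻¹ : Matrix.SpecialLinearGroup (Fin m) F) :
      Matrix (Fin m) (Fin m) F) i j ≠ 0 at hij
  rw [h1, Matrix.mul_apply] at hij
  obtain ⟨l, -, hl⟩ := Finset.exists_ne_zero_of_sum_ne_zero hij
  have h3 := left_ne_zero_of_mul hl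
  rw [Matrix.mul_apply] at h3
  obtain ⟨r, -, hr⟩ := Finset.exists_ne_zero_of_sum_ne_zero h3
  have h4 : r ∈ I ↔ i ∈ I := by
    by_contra h
    exact left_ne_zero_of_mul hr (hx i r fun h' => h h'.symm)
  have h5 : l ∈ I ↔ j ∈ I := by
    by_contra h
    exact right_ne_zero_of_mul hl (hx' l j h)
  exact hTb r i l j h4 h5 (hu r l (right_ne_zero_of_mul hr))

private theorem block_pow (hAB : A * B = 1) {I : Finset (Fin m)} {g : Matrix (Fin m) (Fin m) F}
    (hg : ∀ i j, ¬ (i ∈ I ↔ j ∈ I) → (A * g * B) i j = 0) (n : ℕ) :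
    ∀ i j, ¬ (i ∈ I ↔ j ∈ I) → (A * g ^ n * B) i j = 0 := by
  induction n with
  | zero =>
    intro i j hij
    rw [pow_zero, mul_one, hAB, Matrix.one_apply_ne]
    rintro rfl
    exact hij Iff.rfl
  | succ n ih =>
    intro i j hij
    rw [pow_succ, cross_conj_mul hAB, Matrix.mul_apply]
    refine Finset.sum_eq_zero fun l _ => ?_
    by_contra h
    apply hij
    have h1 : i ∈ I ↔ l ∈ I := by
      by_contra h2
      exact left_ne_zero_of_mul h (ih i l h2)
    have h2 : l ∈ I ↔ j ∈ I := by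
      by_contra h3
      exact right_ne_zero_of_mul h (hg l j h3)
    exact h1.trans h2

end blocks

private theorem cross_mem {p : ℕ} [Fact p.Prime] {k : Type} [Field k] [IsAlgClosed k]
    [CharP k p] {F : Type} [Field F] [Finite F] (hpF : (p : F) ≠ 0) {m : ℕ}
    {A B : Matrix (Fin m) (Fin m) F} (hAB : A * B = 1) {I : Finset (Fin m)}
    {T : Fin m → Fin m → Prop} (hT : ∀ i l j, T i l → T l j → False)
    (hTb : ∀ i i' j j', (i ∈ I ↔ i' ∈ I) → (j ∈ I ↔ j' ∈ I) → T i j → T i' j')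
    (g : Matrix.SpecialLinearGroup (Fin m) F)
    (hg : ∀ i j, ¬ (i ∈ I ↔ j ∈ I) → (A * (g : Matrix (Fin m) (Fin m) F) * B) i j = 0)
    {P : Subgroup (Matrix.SpecialLinearGroup (Fin m) F ⧸
      Subgroup.center (Matrix.SpecialLinearGroup (Fin m) F))} (hP : IsPGroup p P)
    (hPg : P = (Subgroup.zpowers g).map
      (QuotientGroup.mk' (Subgroup.center (Matrix.SpecialLinearGroup (Fin m) F))))
    (u : Matrix.SpecialLinearGroup (Fin m) F)
    (hu : ∀ i j, (A * (u : Matrix (Fin m) (Fin m) F) * B) i j ≠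
      (1 : Matrix (Fin m) (Fin m) F) i j → T i j) :
    QuotientGroup.mk' (Subgroup.center (Matrix.SpecialLinearGroup (Fin m) F)) u ∈
      JJ k P ⊔ Subgroup.normalizer (P : Set (Matrix.SpecialLinearGroup (Fin m) F ⧸
        Subgroup.center (Matrix.SpecialLinearGroup (Fin m) F))) := by
  have hfin : Finite (Matrix.SpecialLinearGroup (Fin m) F) := Subtype.finite
  have hpp : p.Prime := Fact.out
  set π := QuotientGroup.mk' (Subgroup.center (Matrix.SpecialLinearGroup (Fin m) F)) with hπ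
  set U := UU hAB T hT with hU
  have huU : u ∈ U := nn_ne hu
  -- powers of `g` are block diagonal
  have hbd : ∀ x ∈ Subgroup.zpowers g, ∀ i j, ¬ (i ∈ I ↔ j ∈ I) →
      (A * (x : Matrix (Fin m) (Fin m) F) * B) i j = 0 := by
    intro x hx
    rw [← mem_powers_iff_mem_zpowers] at hx
    obtain ⟨n, rfl⟩ := hx
    intro i j hij
    have h1 : ((g ^ n : Matrix.SpecialLinearGroup (Fin m) F) : Matrix (Fin m) (Fin m) F) =
        (g : Matrix (Fin m) (Fin m) F) ^ n := Matrix.SpecialLinearGroup.coe_pow g n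
    change (A * ((g ^ n : Matrix.SpecialLinearGroup (Fin m) F) : Matrix (Fin m) (Fin m) F) * B)
      i j = 0
    rw [h1]
    exact block_pow hAB hg n i j hij
  have c1 : ∀ a ∈ U.map π, ∀ b ∈ U.map π, a * b = b * a := by
    rintro _ ⟨a, ha, rfl⟩ _ ⟨b, hb, rfl⟩
    rw [← map_mul, ← map_mul, UU_comm hAB hT ha hb]
  have c2 : ∀ y ∈ P, ∀ a ∈ U.map π, y * a * y⁻¹ ∈ U.map π := by
    intro y hy
    rw [hPg] at hy
    obtain ⟨x, hx, rfl⟩ := hy
    rintro _ ⟨a, ha, rfl⟩
    refine ⟨x * a * x⁻¹, ?_, by rw [map_mul, map_mul, map_inv]⟩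
    exact UU_conj hAB hT hTb (hbd x hx) (hbd x⁻¹ (inv_mem hx)) ha
  have c3 : ∀ a ∈ P, ∀ b ∈ P, a * b = b * a := by
    rw [hPg]
    rintro _ ⟨a, ha, rfl⟩ _ ⟨b, hb, rfl⟩
    obtain ⟨i, rfl⟩ := Subgroup.mem_zpowers_iff.1 ha
    obtain ⟨j, rfl⟩ := Subgroup.mem_zpowers_iff.1 hb
    rw [← map_mul, ← map_mul, ← zpow_add, ← zpow_add, add_comm]
  have c4 : ¬ p ∣ Nat.card (U.map π) := by
    intro hdvd
    obtain ⟨ℓ, hℓ⟩ := CharP.exists F
    have hℓp : ℓ.Prime := by
      have h1 := CharP.char_is_prime_or_zero F ℓ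
      rcases h1 with h1 | h1
      · exact h1
      · subst h1
        exact absurd hℓ (fun h => by
          have : CharZero F := CharP.charP_to_charZero F
          exact (not_finite F))
    obtain ⟨x, hx⟩ := exists_prime_orderOf_dvd_card' p hdvd
    obtain ⟨⟨_, ⟨a, ha, rfl⟩⟩, rfl⟩ : ∃ y : U.map π, y = x := ⟨x, rfl⟩
    have h1 : a ^ ℓ = 1 := by
      apply Subtype.ext
      change ((a ^ ℓ : Matrix.SpecialLinearGroup (Fin m) F) : Matrix (Fin m) (Fin m) F) =
        ((1 : Matrix.SpecialLinearGroup (Fin m) F) : Matrix (Fin m) (Fin m) F)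
      apply cross_conj_inj hAB
      rw [nn_spec, nn_spec, UU_pow hAB hT ha, CharP.cast_eq_zero, zero_smul, nn,
        Matrix.SpecialLinearGroup.coe_one, mul_one, hAB, sub_self]
    have h2 : (⟨π a, ⟨a, ha, rfl⟩⟩ : U.map π) ^ ℓ = 1 := by
      apply Subtype.ext
      change π a ^ ℓ = 1
      rw [← map_pow, h1, map_one]
    have h3 := orderOf_dvd_of_pow_eq_one h2
    rw [hx] at h3
    have h4 : p = ℓ := (Nat.prime_dvd_prime_iff_eq hpp hℓp).1 h3
    apply hpF
    rw [h4, CharP.cast_eq_zero]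
  obtain ⟨hsol, hd⟩ := cross_sup (p := p) (U.map π) P c1 c2 c3 c4
  have h1 := jj_sylow_solvable (k := k) hP (le_sup_right : P ≤ U.map π ⊔ P) hsol hd
  exact h1 ((le_sup_left : U.map π ≤ U.map π ⊔ P) (Subgroup.mem_map_of_mem π huU))

theorem win_sl_cross {p : ℕ} [Fact p.Prime] {k : Type} [Field k] [IsAlgClosed k]
    [CharP k p] {F : Type} [Field F] [Finite F] (hF : 4 ≤ Nat.card F) (hpF : (p : F) ≠ 0)
    {m : ℕ} (hm : 2 ≤ m) (hmd : m ≠ orderOf ((Nat.card F : ℕ) : ZMod p))
    (hmp : ¬ (m = p ∧ p ∣ Nat.card F - 1))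
    (s : Matrix.SpecialLinearGroup (Fin m) F ⧸
      Subgroup.center (Matrix.SpecialLinearGroup (Fin m) F)) (hs : orderOf s = p) :
    RealAct k (Subgroup.zpowers s) := by
  have hpp : p.Prime := Fact.out
  obtain ⟨-, hnorm⟩ := sl_qs hF hm
  have hfin : Finite (Matrix.SpecialLinearGroup (Fin m) F) := Subtype.finite
  have hP : IsPGroup p (Subgroup.zpowers s) :=
    IsPGroup.of_card (n := 1) (by rw [Nat.card_zpowers, hs, pow_one])
  have hs1 : s ≠ 1 := by
    intro h
    rw [h, orderOf_one] at hs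
    exact hpp.one_lt.ne hs
  obtain ⟨g, hg⟩ := QuotientGroup.mk'_surjective
    (Subgroup.center (Matrix.SpecialLinearGroup (Fin m) F)) s
  have hgen : Subgroup.normalClosure (Subgroup.zpowers s :
      Set (Matrix.SpecialLinearGroup (Fin m) F ⧸
        Subgroup.center (Matrix.SpecialLinearGroup (Fin m) F))) = ⊤ := by
    have hsM : s ∈ Subgroup.normalClosure (Subgroup.zpowers s :
      Set (Matrix.SpecialLinearGroup (Fin m) F ⧸
        Subgroup.center (Matrix.SpecialLinearGroup (Fin m) F))) :=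
      Subgroup.subset_normalClosure (Subgroup.mem_zpowers s)
    rcases hnorm ((Subgroup.normalClosure (Subgroup.zpowers s :
      Set (Matrix.SpecialLinearGroup (Fin m) F ⧸
        Subgroup.center (Matrix.SpecialLinearGroup (Fin m) F)))).comap
      (QuotientGroup.mk' (Subgroup.center (Matrix.SpecialLinearGroup (Fin m) F))))
        inferInstance with h | h
    · exfalso
      apply hs1
      rw [← hg]
      refine (QuotientGroup.eq_one_iff g).2 (h ?_)
      rw [Subgroup.mem_comap, hg]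
      exact hsM
    · rw [eq_top_iff]
      intro y _
      obtain ⟨x, rfl⟩ := QuotientGroup.mk'_surjective
        (Subgroup.center (Matrix.SpecialLinearGroup (Fin m) F)) y
      have h1 : x ∈ (Subgroup.normalClosure (Subgroup.zpowers s :
        Set (Matrix.SpecialLinearGroup (Fin m) F ⧸
          Subgroup.center (Matrix.SpecialLinearGroup (Fin m) F)))).comap
        (QuotientGroup.mk' (Subgroup.center (Matrix.SpecialLinearGroup (Fin m) F))) := by
        rw [h]
        exact Subgroup.mem_top x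
      exact h1
  -- the `p`-th power of `g` is a scalar
  have hgp : g ^ p ∈ Subgroup.center (Matrix.SpecialLinearGroup (Fin m) F) := by
    rw [← QuotientGroup.eq_one_iff]
    change QuotientGroup.mk' (Subgroup.center (Matrix.SpecialLinearGroup (Fin m) F)) (g ^ p) = 1
    rw [map_pow, hg, ← hs, pow_orderOf_eq_one]
  obtain ⟨c, hc1, hc2⟩ := Matrix.SpecialLinearGroup.mem_center_iff.1 hgp
  have hc0 : c ≠ 0 := by
    rintro rfl
    rw [zero_pow (by rw [Fintype.card_fin]; omega)] at hc1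
    exact zero_ne_one hc1
  have hgc : (g : Matrix (Fin m) (Fin m) F) ^ p = c • (1 : Matrix (Fin m) (Fin m) F) := by
    rw [← Matrix.SpecialLinearGroup.coe_pow, ← hc2, Matrix.scalar_apply, Matrix.smul_one_eq_diagonal]
  obtain ⟨A, B, I, hAB, hI, hI', hblk⟩ := exists_block hpF hm hmd hmp _ c hc0 hgc
  have hPg : Subgroup.zpowers s = (Subgroup.zpowers g).map
      (QuotientGroup.mk' (Subgroup.center (Matrix.SpecialLinearGroup (Fin m) F))) := by
    rw [MonoidHom.map_zpowers, hg]
  refine jj_crit hP hgen ?_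
  set L := JJ k (Subgroup.zpowers s) ⊔ Subgroup.normalizer (Subgroup.zpowers s :
    Set (Matrix.SpecialLinearGroup (Fin m) F ⧸
      Subgroup.center (Matrix.SpecialLinearGroup (Fin m) F))) with hL
  have hK := block_gen A B hAB I hI hI'
    (L.comap (QuotientGroup.mk' (Subgroup.center (Matrix.SpecialLinearGroup (Fin m) F))))
    (fun u hu => cross_mem (k := k) hpF hAB (I := I) (T := fun i j => i ∈ I ∧ j ∉ I)
      (fun i l j h1 h2 => h1.2 h2.1)
      (fun i i' j j' h1 h2 h3 => ⟨h1.1 h3.1, fun h => h3.2 (h2.2 h)⟩) g hblk hP hPg u hu)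
    (fun u hu => cross_mem (k := k) hpF hAB (I := I) (T := fun i j => i ∉ I ∧ j ∈ I)
      (fun i l j h1 h2 => h2.1 h1.2)
      (fun i i' j j' h1 h2 h3 => ⟨fun h => h3.1 (h1.2 h), h2.1 h3.2⟩) g hblk hP hPg u hu)
  rw [eq_top_iff]
  intro y _
  obtain ⟨x, rfl⟩ := QuotientGroup.mk'_surjective
    (Subgroup.center (Matrix.SpecialLinearGroup (Fin m) F)) y
  have h1 : x ∈ L.comap (QuotientGroup.mk'
      (Subgroup.center (Matrix.SpecialLinearGroup (Fin m) F))) := by
    rw [hK]
    exact Subgroup.mem_top x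
  exact h1

end Pool.Agent.Helper54.PR
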