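import Pool.Agent.Helper54.PR.SLQuasi

/-!
# PR-05: block decomposition of a matrix whose p-th power is a scalar (cross characteristic)

PROOF.
* `exists_block`: let `V = F^m` with the action of `g`, a module over `F[X]/(X^p - c)`.  `X^p - c` is separable (`p ≠ 0` in `F`,
  `c ≠ 0`), so `g` is semisimple (`Module.End.IsSemisimple`, or Maschke): every invariant subspace has an invariant
  complement.  It is enough to find an invariant subspace different from `0` and `V`: then a basis of `V` adapted to
  `V = V1 ⊕ V2` gives `A`, `B`, `I`.  Suppose that there is none.  Then for `v ≠ 0` the vectors `g^i v` span `V`, and the minimal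
  polynomial `h` of `g` is irreducible of degree `m` (`F[X]/(h) ≃ V`).  `h` divides `X^p - c`.
  Case 1: `c` is a `p`-th power in `F`, `c = a^p`.  Then `a⁻¹ g` has `p`-th power `1`; replace `g` by it.  `h` divides
  `X^p - 1`; `m ≥ 2`, so the class `η` of `X` in `E = F[X]/(h)`, a field with `q^m` elements, satisfies `η^p = 1`, `η ≠ 1`, so it has
  order `p` in `Eˣ` and `p ∣ q^m - 1`; so `d ∣ m` for `d = orderOf (q : ZMod p)`.  Conversely `p ∣ q^d - 1`, so `η^(q^d) = η` (`η^(q^d-1) = 1`),
  so every element of `E = F(η)` satisfies `y^(q^d) = y`, so `q^m ≤ q^d` and `m ≤ d`.  So `m = d`, contradiction to `hmd`.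
  Case 2: `c` is not a `p`-th power.  Then `p ∣ q - 1` (otherwise `y ↦ y^p` is bijective on `Fˣ`) and `X^p - c` is
  irreducible (`X_pow_sub_C_irreducible_of_prime`), so `m = p`: contradiction to `hmp`.
* `block_gen`: for `i ≠ j` and `t` let `e i j t = B E_ij(t) A` (determinant one).  `K' = {u | B u A ∈ K}` is a subgroup of
  `SL_m(F)` (`B * u * A` as an element of `SL_m(F)`; `B A = 1`), and by `sl_gen` it is enough that it contains all `E_ij(t)`:
  if `i ∈ I`, `j ∉ I` this is `h1`, if `i ∉ I`, `j ∈ I` this is `h2`; if `i, j ∈ I`, choose `l ∉ I`: `E_ij(t)` is the commutator of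
  `E_il(t)` and `E_lj(1)`; the same for `i, j ∉ I` with `l ∈ I`.
-/

set_option autoImplicit false
open scoped Pointwise

namespace Pool.Agent.Helper54.PR

open Polynomial in
/-- degrees of the irreducible factors of `X^p - c` over a finite field -/
private theorem deg_irr {p : ℕ} [Fact p.Prime] {F : Type} [Field F] [Finite F] 
    (c : F) (hc : c ≠ 0) (h : F[X]) (hirr : Irreducible h) (hd : h ∣ X ^ p - C c) :
    h.natDegree = 1 ∨ h.natDegree = orderOf ((Nat.card F : ℕ) : ZMod p) ∨
      (h.natDegree = p ∧ p ∣ Nat.card F - 1) := by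
  classical
  have hp : p.Prime := Fact.out
  let _ := Fintype.ofFinite F
  have hpos : 0 < h.natDegree := hirr.natDegree_pos
  by_cases hcp : ∃ a : F, a ^ p = c
  · obtain ⟨a, rfl⟩ := hcp
    have ha : a ≠ 0 := by rintro rfl; rw [zero_pow hp.ne_zero] at hc; exact hc rfl
    have _ := Fact.mk hirr
    have hfd : Module.Finite F (AdjoinRoot h) := (AdjoinRoot.powerBasis hirr.ne_zero).finite
    have hfin : Finite (AdjoinRoot h) := Module.finite_of_finite F
    have hrank : Module.finrank F (AdjoinRoot h) = h.natDegree := by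
      rw [(AdjoinRoot.powerBasis hirr.ne_zero).finrank, AdjoinRoot.powerBasis_dim]
    have hη : AdjoinRoot.root h ^ p = algebraMap F (AdjoinRoot h) (a ^ p) := by
      obtain ⟨w, hw⟩ := hd
      have h1 : aeval (AdjoinRoot.root h) (X ^ p - C (a ^ p) : F[X]) = 0 := by
        rw [hw, map_mul, AdjoinRoot.aeval_eq, AdjoinRoot.mk_self, zero_mul]
      rw [map_sub, map_pow, aeval_X, aeval_C, sub_eq_zero] at h1
      exact h1
    have ha' : algebraMap F (AdjoinRoot h) a ≠ 0 := (_root_.map_ne_zero _).2 ha
    by_cases hζ : AdjoinRoot.root h = algebraMap F (AdjoinRoot h) a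
    · left
      have h1 : h ∣ X - C a := by
        rw [← AdjoinRoot.mk_eq_zero, map_sub, AdjoinRoot.mk_X, AdjoinRoot.mk_C, hζ]
        exact sub_self _
      have h2 := natDegree_le_of_dvd h1 (X_sub_C_ne_zero a)
      rw [natDegree_X_sub_C] at h2
      omega
    · right; left
      have hη0 : AdjoinRoot.root h ≠ 0 := by
        intro h0
        rw [h0, zero_pow hp.ne_zero, map_pow] at hη
        exact pow_ne_zero _ ha' hη.symm
      let ζ : (AdjoinRoot h)ˣ := Units.mk0 (AdjoinRoot.root h / algebraMap F (AdjoinRoot h) a) (div_ne_zero hη0 ha')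
      have hζp : ζ ^ p = 1 := by
        apply Units.ext
        change (AdjoinRoot.root h / algebraMap F (AdjoinRoot h) a) ^ p = 1
        rw [div_pow, hη, map_pow, div_self (pow_ne_zero _ ha')]
      have hζ1 : ζ ≠ 1 := by
        intro h1
        have h2 := congrArg Units.val h1
        change AdjoinRoot.root h / algebraMap F (AdjoinRoot h) a = 1 at h2
        rw [div_eq_one_iff_eq ha'] at h2
        exact hζ h2
      have hord : orderOf ζ = p := orderOf_eq_prime hζp hζ1
      have hcard : Fintype.card F = Nat.card F := Nat.card_eq_fintype_card.symm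
      have hφ : ∀ (n : ℕ) (y : AdjoinRoot h), (FiniteField.frobeniusAlgHom F (AdjoinRoot h) ^ n) y =
          y ^ (Nat.card F ^ n) := by
        intro n y
        rw [AlgHom.coe_pow, FiniteField.coe_frobeniusAlgHom, pow_iterate, hcard]
      have hkey : ∀ n : ℕ, (FiniteField.frobeniusAlgHom F (AdjoinRoot h) ^ n) (AdjoinRoot.root h) =
          AdjoinRoot.root h ↔ ((Nat.card F : ℕ) : ZMod p) ^ n = 1 := by
        intro n
        rw [← Nat.cast_pow, ← Nat.cast_one, ZMod.natCast_eq_natCast_iff, ← hord, ← pow_eq_pow_iff_modEq,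
          pow_one]
        have e : AdjoinRoot.root h = algebraMap F (AdjoinRoot h) a * (ζ : AdjoinRoot h) := by
          change _ = algebraMap F (AdjoinRoot h) a * (AdjoinRoot.root h / algebraMap F (AdjoinRoot h) a)
          field_simp
        constructor
        · intro h1
          apply Units.ext
          rw [e, map_mul, AlgHom.commutes] at h1
          have h2 := mul_left_cancel₀ ha' h1
          rw [hφ] at h2
          rw [Units.val_pow_eq_pow_val]
          exact h2
        · intro h1
          rw [e, map_mul, AlgHom.commutes]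
          congr 1
          rw [hφ, ← Units.val_pow_eq_pow_val, h1]
      apply Nat.dvd_antisymm
      · rw [← hrank, ← FiniteField.orderOf_frobeniusAlgHom]
        apply orderOf_dvd_of_pow_eq_one
        apply AdjoinRoot.algHom_ext
        rw [(hkey _).2 (pow_orderOf_eq_one _)]
        rfl
      · apply orderOf_dvd_of_pow_eq_one
        rw [← hkey, ← hrank, ← FiniteField.orderOf_frobeniusAlgHom, pow_orderOf_eq_one]
        rfl
  · right; right
    push Not at hcp
    have h1 := X_pow_sub_C_irreducible_of_prime hp hcp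
    have h2 := Polynomial.degree_eq_degree_of_associated (hirr.associated_of_dvd h1 hd)
    have h3 := Polynomial.natDegree_eq_of_degree_eq h2
    rw [natDegree_X_pow_sub_C] at h3
    refine ⟨h3, ?_⟩
    by_contra hnd
    have h4 : (Nat.card Fˣ).Coprime p := by
      rw [Nat.card_units]
      exact ((Nat.Prime.coprime_iff_not_dvd hp).2 hnd).symm
    obtain ⟨y, hy⟩ := (Nat.Coprime.pow_left_bijective h4).2 (Units.mk0 c hc)
    exact hcp y (by
      have := congrArg Units.val hy
      rw [Units.val_pow_eq_pow_val] at this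
      exact this)

open Polynomial in
/-- either there is a proper nonzero invariant subspace or the minimal polynomial is irreducible of full degree -/
private theorem exists_inv {F : Type} [Field F] {m : ℕ} (hm : 2 ≤ m) (g : Matrix (Fin m) (Fin m) F) (P : F[X])
    (hgP : aeval (Matrix.toLin' g) P = 0)
    (hno : ∀ h : F[X], Irreducible h → h ∣ P → h.natDegree ≠ m) :
    ∃ W ∈ Module.End.invtSubmodule (Matrix.toLin' g), W ≠ ⊥ ∧ W ≠ ⊤ := by
  classical
  set f : Module.End F (Fin m → F) := Matrix.toLin' g with hf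
  by_contra hcon
  push Not at hcon
  have hfr : Module.finrank F (Fin m → F) = m := by simp
  have hnt : Nontrivial (Fin m → F) := by
    rw [← Module.finrank_pos_iff (R := F), hfr]; omega
  have hint : IsIntegral F f := Algebra.IsIntegral.isIntegral f
  have hmn : minpoly F f ≠ 0 := minpoly.ne_zero hint
  have hmu : ¬ IsUnit (minpoly F f) := minpoly.not_isUnit F f
  obtain ⟨h, hirr, hdvd⟩ := WfDvdMonoid.exists_irreducible_factor hmu hmn
  have hhP : h ∣ P := hdvd.trans (minpoly.dvd F f hgP)
  obtain ⟨k', hk'⟩ := hdvd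
  have hk0 : k' ≠ 0 := by
    rintro rfl
    rw [mul_zero] at hk'
    exact hmn hk'
  have hk'f : aeval f k' ≠ 0 := by
    intro h0
    have h1 := minpoly.dvd F f h0
    have h2 := natDegree_le_of_dvd h1 hk0
    rw [hk', natDegree_mul hirr.ne_zero hk0] at h2
    have := hirr.natDegree_pos
    omega
  obtain ⟨w, hw⟩ : ∃ w, aeval f k' w ≠ 0 := by
    by_contra hcon
    push Not at hcon
    exact hk'f (LinearMap.ext fun x => by rw [hcon x]; rfl)
  set v := aeval f k' w with hv
  have hhv : aeval f h v = 0 := by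
    have h1 : aeval f (minpoly F f) w = 0 := by rw [minpoly.aeval]; rfl
    rw [hk', map_mul] at h1
    exact h1
  -- the evaluation map
  let φ : F[X] →ₗ[F] (Fin m → F) := (LinearMap.applyₗ v).comp (aeval f).toLinearMap
  have hφ : ∀ P, φ P = aeval f P v := fun P => rfl
  have hφf : ∀ P, f (φ P) = φ (X * P) := by
    intro P
    rw [hφ, hφ, map_mul, aeval_X]
    rfl
  have htop : LinearMap.range φ = ⊤ := by
    apply hcon
    · rw [Module.End.mem_invtSubmodule]
      rintro _ ⟨Q, rfl⟩
      exact ⟨X * Q, (hφf Q).symm⟩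
    · intro h0
      have h1 : v ∈ LinearMap.range φ := ⟨1, by rw [hφ, map_one]; rfl⟩
      rw [h0, Submodule.mem_bot] at h1
      exact hw h1
  have hsurj : Function.Surjective (φ.comp ((degreeLT F h.natDegree).subtype)) := by
    intro y
    obtain ⟨Q, hQ⟩ : ∃ Q, φ Q = y := LinearMap.range_eq_top.1 htop y
    have h1 : Q % h ∈ degreeLT F h.natDegree := by
      rw [mem_degreeLT]
      refine (EuclideanDomain.mod_lt Q hirr.ne_zero).trans_le degree_le_natDegree
    refine ⟨⟨Q % h, h1⟩, ?_⟩
    change φ (Q % h) = y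
    have h2 : Q = Q / h * h + Q % h := (EuclideanDomain.div_add_mod' Q h).symm
    rw [← hQ]
    nth_rewrite 2 [h2]
    rw [map_add, hφ (Q / h * h), map_mul, Module.End.mul_apply, hhv, map_zero, zero_add]
  have hle : m ≤ h.natDegree := by
    have hf1 : Module.Finite F (degreeLT F h.natDegree) := Module.Finite.equiv (degreeLTEquiv F h.natDegree).symm
    have h1 := LinearMap.finrank_le_finrank_of_surjective hsurj
    rw [hfr, (degreeLTEquiv F h.natDegree).finrank_eq] at h1
    simpa using h1
  have hge : h.natDegree ≤ m := by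
    have h1 : h ∣ f.charpoly := (Dvd.intro _ hk'.symm).trans (LinearMap.minpoly_dvd_charpoly f)
    have h2 := natDegree_le_of_dvd h1 (LinearMap.charpoly_monic f).ne_zero
    rwa [LinearMap.charpoly_natDegree, hfr] at h2
  exact hno h hirr hhP (le_antisymm hge hle)

open Polynomial in
theorem exists_block {p : ℕ} [Fact p.Prime] {F : Type} [Field F] [Finite F]
    (hpF : (p : F) ≠ 0) {m : ℕ} (hm : 2 ≤ m)
    (hmd : m ≠ orderOf ((Nat.card F : ℕ) : ZMod p))
    (hmp : ¬ (m = p ∧ p ∣ Nat.card F - 1)) (g : Matrix (Fin m) (Fin m) F) (c : F) (hc : c ≠ 0)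
    (hg : g ^ p = c • (1 : Matrix (Fin m) (Fin m) F)) :
    ∃ (A B : Matrix (Fin m) (Fin m) F) (I : Finset (Fin m)), A * B = 1 ∧ I.Nonempty ∧
      I ≠ Finset.univ ∧ ∀ i j, ¬ (i ∈ I ↔ j ∈ I) → (A * g * B) i j = 0 := by
  classical
  set f : Module.End F (Fin m → F) := Matrix.toLin' g with hf
  have haev : aeval f (X ^ p - C c : F[X]) = 0 := by
    rw [map_sub, map_pow, aeval_X, aeval_C, hf, ← Matrix.toLin'_pow, hg, map_smul, Matrix.toLin'_one, sub_eq_zero]
    ext
    simp [Algebra.algebraMap_eq_smul_one]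
  have hss : f.IsSemisimple := Module.End.isSemisimple_of_squarefree_aeval_eq_zero
    (separable_X_pow_sub_C c hpF hc).squarefree haev
  obtain ⟨W, hW, hWb, hWt⟩ := exists_inv hm g (X ^ p - C c) haev (by
    intro h hirr hd hdeg
    rcases deg_irr c hc h hirr hd with h1 | h1 | h1
    · omega
    · exact hmd (hdeg.symm.trans h1)
    · exact hmp ⟨hdeg.symm.trans h1.1, h1.2⟩)
  obtain ⟨W', hW', hcompl⟩ := (Module.End.isSemisimple_iff.1 hss) W hW
  have hfr : Module.finrank F (Fin m → F) = m := by simp
  set a := Module.finrank F W with ha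
  set a' := Module.finrank F W' with ha'
  have haa : a + a' = m := by rw [← hfr, ← Submodule.finrank_add_eq_of_isCompl hcompl]
  let b0 : Module.Basis (Fin a ⊕ Fin a') F (Fin m → F) :=
    ((Module.finBasis F W).prod (Module.finBasis F W')).map (Submodule.prodEquivOfIsCompl W W' hcompl)
  let e : Fin a ⊕ Fin a' ≃ Fin m := finSumFinEquiv.trans (finCongr haa)
  let b := b0.reindex e
  have hb0l : ∀ i, b0 (Sum.inl i) ∈ W := by
    intro i
    change (Submodule.prodEquivOfIsCompl W W' hcompl) (((Module.finBasis F W).prod (Module.finBasis F W')) (Sum.inl i)) ∈ W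
    rw [Submodule.coe_prodEquivOfIsCompl', Module.Basis.prod_apply_inl_snd]
    simp
  have hb0r : ∀ i, b0 (Sum.inr i) ∈ W' := by
    intro i
    change (Submodule.prodEquivOfIsCompl W W' hcompl) (((Module.finBasis F W).prod (Module.finBasis F W')) (Sum.inr i)) ∈ W'
    rw [Submodule.coe_prodEquivOfIsCompl', Module.Basis.prod_apply_inr_fst]
    simp
  have hrl : ∀ y ∈ W, ∀ j, b0.repr y (Sum.inr j) = 0 := by
    intro y hy j
    change (((Module.finBasis F W).prod (Module.finBasis F W')).repr ((Submodule.prodEquivOfIsCompl W W' hcompl).symm y)) (Sum.inr j) = 0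
    have h1 := Submodule.prodEquivOfIsCompl_symm_apply_left W W' hcompl ⟨y, hy⟩
    rw [h1, Module.Basis.prod_repr_inr]
    simp
  have hrr : ∀ y ∈ W', ∀ j, b0.repr y (Sum.inl j) = 0 := by
    intro y hy j
    change (((Module.finBasis F W).prod (Module.finBasis F W')).repr ((Submodule.prodEquivOfIsCompl W W' hcompl).symm y)) (Sum.inl j) = 0
    have h1 := Submodule.prodEquivOfIsCompl_symm_apply_right W W' hcompl ⟨y, hy⟩
    rw [h1, Module.Basis.prod_repr_inl]
    simp
  have ha0 : 0 < a := by
    rw [Nat.pos_iff_ne_zero]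
    intro h0
    exact hWb (Submodule.finrank_eq_zero.1 h0)
  have ha'0 : 0 < a' := by
    rw [Nat.pos_iff_ne_zero]
    intro h0
    have h1 : W' = ⊥ := Submodule.finrank_eq_zero.1 h0
    rw [h1] at hcompl
    exact hWt (by simpa using hcompl.sup_eq_top)
  refine ⟨b.toMatrix (Pi.basisFun F (Fin m)), (Pi.basisFun F (Fin m)).toMatrix b,
    Finset.univ.filter fun i => ∃ j, e (Sum.inl j) = i, Module.Basis.toMatrix_mul_toMatrix_flip _ _, ?_, ?_, ?_⟩
  · exact ⟨e (Sum.inl ⟨0, ha0⟩), Finset.mem_filter.2 ⟨Finset.mem_univ _, _, rfl⟩⟩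
  · intro h
    have h1 : e (Sum.inr ⟨0, ha'0⟩) ∈ (Finset.univ.filter fun i => ∃ j, e (Sum.inl j) = i : Finset (Fin m)) := by
      rw [h]; exact Finset.mem_univ _
    obtain ⟨j, hj⟩ := (Finset.mem_filter.1 h1).2
    have := e.injective hj
    simp at this
  · intro i j hij
    have h1 : b.toMatrix (Pi.basisFun F (Fin m)) * g * (Pi.basisFun F (Fin m)).toMatrix b =
        LinearMap.toMatrix b b f := by
      rw [← basis_toMatrix_mul_linearMap_toMatrix_mul_basis_toMatrix (b := b) (b' := Pi.basisFun F (Fin m))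
        (c := b) (c' := Pi.basisFun F (Fin m)) f]
      congr 2
      rw [hf, ← Matrix.toLin_eq_toLin', LinearMap.toMatrix_toLin]
    rw [h1, LinearMap.toMatrix_apply]
    have hmem : ∀ s, (e s ∈ (Finset.univ.filter fun i => ∃ j, e (Sum.inl j) = i : Finset (Fin m))) ↔ ∃ j, s = Sum.inl j := by
      intro s
      rw [Finset.mem_filter]
      constructor
      · rintro ⟨_, j, hj⟩
        exact ⟨j, (e.injective hj).symm⟩
      · rintro ⟨j, rfl⟩
        exact ⟨Finset.mem_univ _, j, rfl⟩
    obtain ⟨s, rfl⟩ := e.surjective i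
    obtain ⟨t, rfl⟩ := e.surjective j
    rw [hmem, hmem] at hij
    have h2 : b (e t) = b0 t := by
      change b0.reindex e (e t) = b0 t
      rw [Module.Basis.reindex_apply, Equiv.symm_apply_apply]
    have h3 : ∀ y, b.repr y (e s) = b0.repr y s := by
      intro y
      change (b0.reindex e).repr y (e s) = b0.repr y s
      rw [Module.Basis.repr_reindex_apply, Equiv.symm_apply_apply]
    rw [h2, h3]
    rcases s with s | s <;> rcases t with t | t
    · exact absurd (by simp) hij
    · exact hrr _ (hW' (hb0r t)) s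
    · exact hrl _ (hW (hb0l t)) s
    · exact absurd (by simp) hij


private theorem transv_comm {F : Type} [Field F] {m : ℕ} {i j l : Fin m} (hij : i ≠ j) (hil : i ≠ l)
    (hlj : l ≠ j) (t : F) : Matrix.SpecialLinearGroup.transvection hij t =
      Matrix.SpecialLinearGroup.transvection hil t * Matrix.SpecialLinearGroup.transvection hlj 1 *
        (Matrix.SpecialLinearGroup.transvection hil t)⁻¹ *
          (Matrix.SpecialLinearGroup.transvection hlj 1)⁻¹ := by
  rw [Matrix.SpecialLinearGroup.transvection_inv, Matrix.SpecialLinearGroup.transvection_inv]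
  apply Subtype.ext
  rw [Matrix.SpecialLinearGroup.coe_mul, Matrix.SpecialLinearGroup.coe_mul, Matrix.SpecialLinearGroup.coe_mul,
    Matrix.SpecialLinearGroup.transvection_coe, Matrix.SpecialLinearGroup.transvection_coe,
    Matrix.SpecialLinearGroup.transvection_coe, Matrix.SpecialLinearGroup.transvection_coe,
    Matrix.SpecialLinearGroup.transvection_coe]
  set a : Matrix (Fin m) (Fin m) F := Matrix.single i l t with ha
  set b : Matrix (Fin m) (Fin m) F := Matrix.single l j 1 with hb
  have ha' : Matrix.single i l (-t) = -a := by rw [ha, Matrix.single_neg]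
  have hb' : Matrix.single l j (-1 : F) = -b := by rw [hb, Matrix.single_neg]
  have hab : a * b = Matrix.single i j t := by
    rw [ha, hb, Matrix.single_mul_single_same, mul_one]
  have haa : a * a = 0 := by rw [ha, Matrix.single_mul_single_of_ne _ _ _ _ hil.symm]
  have hbb : b * b = 0 := by rw [hb, Matrix.single_mul_single_of_ne _ _ _ _ hlj.symm]
  have hba : b * a = 0 := by rw [ha, hb, Matrix.single_mul_single_of_ne _ _ _ _ hij.symm]
  rw [ha', hb', ← hab]
  have e1 : (1 + a) * (1 + b) * (1 + -a) * (1 + -b) = 1 + a * b + (- a * a + (a * a) * b) + (-(b * b)) + (-(b * a))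
      + b * a * b + (- a * (b * a)) + (- a * (b * b)) + a * (b * a) * b := by noncomm_ring
  rw [e1, haa, hbb, hba]
  simp [haa]

theorem block_gen {F : Type} [Field F] {m : ℕ} (A B : Matrix (Fin m) (Fin m) F)
    (hAB : A * B = 1) (I : Finset (Fin m)) (hI : I.Nonempty) (hI' : I ≠ Finset.univ)
    (K : Subgroup (Matrix.SpecialLinearGroup (Fin m) F))
    (h1 : ∀ u : Matrix.SpecialLinearGroup (Fin m) F,
      (∀ i j, (A * (u : Matrix (Fin m) (Fin m) F) * B) i j ≠ (1 : Matrix (Fin m) (Fin m) F) i j →
        i ∈ I ∧ j ∉ I) → u ∈ K)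
    (h2 : ∀ u : Matrix.SpecialLinearGroup (Fin m) F,
      (∀ i j, (A * (u : Matrix (Fin m) (Fin m) F) * B) i j ≠ (1 : Matrix (Fin m) (Fin m) F) i j →
        i ∉ I ∧ j ∈ I) → u ∈ K) : K = ⊤ := by
  classical
  have hBA : B * A = 1 := mul_eq_one_comm.1 hAB
  have hdet : B.det * A.det = 1 := by rw [← Matrix.det_mul, hBA, Matrix.det_one]
  have hcancel : ∀ M : Matrix (Fin m) (Fin m) F, A * (B * M * A) * B = M := by
    intro M
    calc A * (B * M * A) * B = (A * B) * M * (A * B) := by noncomm_ring
      _ = M := by rw [hAB, one_mul, mul_one]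
  let Φ : Matrix.SpecialLinearGroup (Fin m) F →* Matrix.SpecialLinearGroup (Fin m) F :=
    { toFun := fun u => ⟨B * (u : Matrix (Fin m) (Fin m) F) * A, by
        rw [Matrix.det_mul, Matrix.det_mul, u.2, mul_one, hdet]⟩
      map_one' := by
        apply Subtype.ext
        change B * ((1 : Matrix.SpecialLinearGroup (Fin m) F) : Matrix (Fin m) (Fin m) F) * A = _
        rw [Matrix.SpecialLinearGroup.coe_one, mul_one, hBA]
      map_mul' := by
        intro u w
        apply Subtype.ext
        change B * ((u * w : Matrix.SpecialLinearGroup (Fin m) F) : Matrix (Fin m) (Fin m) F) * A =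
          (B * (u : Matrix (Fin m) (Fin m) F) * A) * (B * (w : Matrix (Fin m) (Fin m) F) * A)
        rw [Matrix.SpecialLinearGroup.coe_mul]
        calc B * ((u : Matrix (Fin m) (Fin m) F) * w) * A = B * u * 1 * (w * A) := by noncomm_ring
          _ = B * u * (A * B) * (w * A) := by rw [hAB]
          _ = _ := by noncomm_ring }
  have hΦ : ∀ u, ((Φ u : Matrix.SpecialLinearGroup (Fin m) F) : Matrix (Fin m) (Fin m) F) = B * u * A := fun u => rfl
  have hentry : ∀ (i j : Fin m) (hij : i ≠ j) (t : F) (i' j' : Fin m),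
      (A * ((Φ (Matrix.SpecialLinearGroup.transvection hij t) : Matrix.SpecialLinearGroup (Fin m) F) :
        Matrix (Fin m) (Fin m) F) * B) i' j' ≠ (1 : Matrix (Fin m) (Fin m) F) i' j' → i' = i ∧ j' = j := by
    intro i j hij t i' j' hne
    rw [hΦ, hcancel, Matrix.SpecialLinearGroup.transvection_coe, Matrix.add_apply] at hne
    by_contra hcon
    apply hne
    rw [Matrix.single_apply_of_ne, add_zero]
    rintro ⟨rfl, rfl⟩
    exact hcon ⟨rfl, rfl⟩
  obtain ⟨x, hx⟩ := hI
  obtain ⟨y, hy⟩ : ∃ y, y ∉ I := by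
    by_contra hcon
    push Not at hcon
    exact hI' (Finset.eq_univ_iff_forall.2 hcon)
  have hK1 : ∀ (i j : Fin m) (hij : i ≠ j) (t : F), i ∈ I → j ∉ I →
      Φ (Matrix.SpecialLinearGroup.transvection hij t) ∈ K := by
    intro i j hij t hi hj
    refine h1 _ fun i' j' hne => ?_
    obtain ⟨rfl, rfl⟩ := hentry i j hij t i' j' hne
    exact ⟨hi, hj⟩
  have hK2 : ∀ (i j : Fin m) (hij : i ≠ j) (t : F), i ∉ I → j ∈ I →
      Φ (Matrix.SpecialLinearGroup.transvection hij t) ∈ K := by
    intro i j hij t hi hj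
    refine h2 _ fun i' j' hne => ?_
    obtain ⟨rfl, rfl⟩ := hentry i j hij t i' j' hne
    exact ⟨hi, hj⟩
  have htop : K.comap Φ = ⊤ := by
    apply sl_gen
    intro i j hij t
    rw [Subgroup.mem_comap]
    by_cases hi : i ∈ I
    · by_cases hj : j ∈ I
      · have hil : i ≠ y := fun h => hy (h ▸ hi)
        have hlj : y ≠ j := fun h => hy (h ▸ hj)
        rw [transv_comm hij hil hlj t, map_mul, map_mul, map_mul, map_inv, map_inv]
        exact K.mul_mem (K.mul_mem (K.mul_mem (hK1 _ _ _ _ hi hy) (hK2 _ _ _ _ hy hj))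
          (K.inv_mem (hK1 _ _ _ _ hi hy))) (K.inv_mem (hK2 _ _ _ _ hy hj))
      · exact hK1 _ _ _ _ hi hj
    · by_cases hj : j ∈ I
      · exact hK2 _ _ _ _ hi hj
      · have hil : i ≠ x := fun h => hi (h ▸ hx)
        have hlj : x ≠ j := fun h => hj (h ▸ hx)
        rw [transv_comm hij hil hlj t, map_mul, map_mul, map_mul, map_inv, map_inv]
        exact K.mul_mem (K.mul_mem (K.mul_mem (hK2 _ _ _ _ hi hx) (hK1 _ _ _ _ hx hj))
          (K.inv_mem (hK2 _ _ _ _ hi hx))) (K.inv_mem (hK1 _ _ _ _ hx hj))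
  rw [eq_top_iff]
  intro u _
  have hu : (B.det * A.det = 1) := hdet
  let w : Matrix.SpecialLinearGroup (Fin m) F := ⟨A * (u : Matrix (Fin m) (Fin m) F) * B, by
    rw [Matrix.det_mul, Matrix.det_mul, u.2, mul_one, mul_comm, hdet]⟩
  have hw : Φ w = u := by
    apply Subtype.ext
    rw [hΦ]
    change B * (A * (u : Matrix (Fin m) (Fin m) F) * B) * A = u
    calc B * (A * (u : Matrix (Fin m) (Fin m) F) * B) * A = (B * A) * u * (B * A) := by noncomm_ring
      _ = u := by rw [hBA, one_mul, mul_one]
  rw [← hw]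
  have h3 : w ∈ K.comap Φ := by rw [htop]; trivial
  exact h3

end Pool.Agent.Helper54.PR
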