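import Pool.Agent.Helper54.RT.JJ
import Pool.Agent.Helper54.PR.QuasiBase

/-!
# PR-01: quasisimple subgroups normalized by an element of p-power order

PROOF.
* `lr_quasi`: let `C` be the centralizer of `f.range` in `H`, a normal subgroup (`f.range` is normal in `H`: `x` normalizes it by
  `hxg`).  `C ⊓ f.range` is commutative, and `C / (C ⊓ f.range)` embeds in `H / f.range`, a quotient of the cyclic group
  `zpowers x`; so `C` is solvable.  Let `N = {u : X | f u ∈ C}`, a normal subgroup of `X` containing the center; `N ≠ ⊤`, since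
  otherwise `f.range` is commutative, and `X` perfect would give `f = 1`, in contradiction to `hne`.  So `N ≤ center X`, `N = center X`.
  Every element of `H` is `f u * x^n`, and modulo `C` the element `x` is the same as `f g` (`hxg` says that
  `(f g)⁻¹ x` centralizes `f.range`).  So `X → H ⧸ C`, `u ↦ f u`, is surjective with kernel `N`: `H ⧸ C ≃* X ⧸ center X`, `x ↦ g`.
  The class `s` of `g` in `X ⧸ center X` has order `p`: `g ∉ N` by `hne`, and `g^p ∈ N` by `hp1` (`x^p` and `f (g^p)` act on
  `f.range` in the same way).  So `RealAct k` holds for the image of `zpowers x` in `H ⧸ C` (`hr`, `ra_iso`).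
  The normal closure `M` of `zpowers x` in `H` is `⊤`: `{u : X | f u ∈ M}` is normal in `X`, and it is not contained in the center:
  it contains all `v (g v⁻¹ g⁻¹)` (`f v (x (f v)⁻¹ x⁻¹) = (f v x (f v)⁻¹) x⁻¹ ∈ M`), and if all these are in the center then so is the
  class `s` in the center of `X ⧸ center X`, whose preimage in `X` is the center of `X` (`X` is perfect: for `z` with `[z, X]`
  central, `u ↦ [z, u]` is a homomorphism to a commutative group, so trivial), contradiction.  So it is `⊤`, `f.range ≤ M`, and
  `x ∈ M`.  Now `ra_solvable_kernel` for `H`, `C`, `zpowers x`.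
-/

set_option autoImplicit false
open scoped Pointwise
open Pool.Agent.Helper54.PW Pool.Agent.Helper54.RT

namespace Pool.Agent.Helper54.PR

theorem lr_quasi {p : ℕ} [Fact p.Prime] {k : Type} [Field k] [IsAlgClosed k] [CharP k p]
    {X : Type} [Group X] [Finite X] (hX : QS X)
    (hr : ∀ s : X ⧸ Subgroup.center X, orderOf s = p → RealAct k (Subgroup.zpowers s))
    {H : Type} [Group H] [Finite H] (f : X →* H) (x : H) (g : X)
    (hxp : IsPGroup p (Subgroup.zpowers x)) (hxg : ∀ u, x * f u * x⁻¹ = f (g * u * g⁻¹))
    (hne : ∃ u, x * f u * x⁻¹ ≠ f u) (hp1 : ∀ u, x ^ p * f u * (x ^ p)⁻¹ = f u)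
    (htop : f.range ⊔ Subgroup.zpowers x = ⊤) : RealAct k (Subgroup.zpowers x) := by
  obtain ⟨C, hCn, hCs, hncl, s, e, hs, he⟩ := lrq_core hX f x g hxg hne hp1 htop
  refine ra_solvable_kernel C hCs hxp hncl ?_
  rw [← he]
  exact (ra_iso e).2 (hr s hs)

end Pool.Agent.Helper54.PR
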